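import Pool.Graph.R_pool_sql_team_seeded_707910d6.T2H20.AH.Gf

/-!
Pairs of integers `x, y` with a bounded greatest common divisor, for which `x, y, x + y` are the
members of an exception to Oesterlé's inequality.
-/

set_option autoImplicit false

namespace Pool.Agent.H583.SF

open Finset Pool.Agent.T2H20.ABC Pool.Agent.T2H20.AH Pool.Agent.H785R2.ABC

/-- the radical of an integer -/
def zr (n : ℤ) : ℕ := rad n.natAbs

lemma rad_pos (n : ℕ) : 0 < rad n := Finset.prod_pos fun _ hp => (Nat.prime_of_mem_primeFactors hp).pos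

lemma rad_dvd_of_dvd {m n : ℕ} (hn : n ≠ 0) (h : m ∣ n) : rad m ∣ rad n :=
  Finset.prod_dvd_prod_of_subset _ _ _ (Nat.primeFactors_mono h hn)

lemma rad_le_of_dvd {m n : ℕ} (hn : n ≠ 0) (h : m ∣ n) : rad m ≤ rad n :=
  Nat.le_of_dvd (rad_pos n) (rad_dvd_of_dvd hn h)

lemma rad_dvd_self (n : ℕ) : rad n ∣ n := Nat.prod_primeFactors_dvd n

lemma rad_le_self {n : ℕ} (hn : n ≠ 0) : rad n ≤ n := Nat.le_of_dvd (Nat.pos_of_ne_zero hn) (rad_dvd_self n)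

/-- `rad m * rad n = rad (m * n) * rad (gcd m n)` -/
lemma rad_mul_rad {m n : ℕ} (hm : m ≠ 0) (hn : n ≠ 0) :
    rad m * rad n = rad (m * n) * rad (Nat.gcd m n) := by
  unfold rad
  rw [Nat.primeFactors_mul hm hn, Nat.primeFactors_gcd hm hn, Finset.prod_union_inter]

lemma rad_mul_le {m n : ℕ} (hm : m ≠ 0) (hn : n ≠ 0) : rad (m * n) ≤ rad m * rad n := by
  rw [rad_mul_rad hm hn]
  exact Nat.le_mul_of_pos_right _ (rad_pos _)

lemma zr_pos (n : ℤ) : 0 < zr n := rad_pos _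

lemma zr_le_of_dvd {m n : ℤ} (hn : n ≠ 0) (h : m ∣ n) : zr m ≤ zr n :=
  rad_le_of_dvd (Int.natAbs_ne_zero.2 hn) (Int.natAbs_dvd_natAbs.2 h)

lemma zr_dvd_of_dvd {m n : ℤ} (hn : n ≠ 0) (h : m ∣ n) : zr m ∣ zr n :=
  rad_dvd_of_dvd (Int.natAbs_ne_zero.2 hn) (Int.natAbs_dvd_natAbs.2 h)

/-- the decoding map -/
def dec (t : (ℕ × ℕ) × ℕ × Fin 3 × Bool) : ℤ × ℤ :=
  let g : ℤ := (if t.2.2.2 then 1 else -1) * t.2.1
  if t.2.2.1 = 0 then (g * t.1.1, g * t.1.2)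
  else if t.2.2.1 = 1 then (g * t.1.1, -(g * (t.1.1 + t.1.2)))
  else (-(g * (t.1.1 + t.1.2)), g * t.1.1)

/-- the statement of `code_exists` for given `x, y` -/
def Coded (x y : ℤ) : Prop :=
  ∃ (q : ℕ × ℕ) (c : Fin 3) (s : Bool), 0 < q.1 ∧ 0 < q.2 ∧ Nat.Coprime q.1 q.2 ∧
    rad (q.1 * q.2 * (q.1 + q.2)) = zr (x * y * (x + y)) ∧
    (∃ i j : Fin 3, i ≠ j ∧ rad (num (tri q) i) = zr x ∧ rad (num (tri q) j) = zr y) ∧
    max x.natAbs y.natAbs ≤ q.1 + q.2 ∧ ∀ g : ℕ, dec (q, g, c, s) = ((g : ℤ) * x, (g : ℤ) * y)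

lemma num0 (q : ℕ × ℕ) : num (tri q) 0 = q.1 := rfl
lemma num1 (q : ℕ × ℕ) : num (tri q) 1 = q.2 := rfl
lemma num2 (q : ℕ × ℕ) : num (tri q) 2 = q.1 + q.2 := rfl

lemma coded_of {x y : ℤ} (a b : ℕ) (ha : 0 < a) (hb : 0 < b) (hc : IsCoprime x y)
    (h : (x = a ∧ y = b) ∨ (x = -a ∧ y = -b) ∨ (x = a ∧ y = -(a + b)) ∨ (x = -a ∧ y = a + b) ∨
      (x = a + b ∧ y = -a) ∨ (x = -(a + b) ∧ y = a)) : Coded x y := by
  obtain ⟨u, v, huv⟩ := hc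
  have e1 : ((a : ℤ) + b).natAbs = a + b := by
    rw [show ((a : ℤ) + b) = ((a + b : ℕ) : ℤ) by push_cast; rfl]; exact Int.natAbs_natCast _
  have cop : IsCoprime (a : ℤ) (b : ℤ) → Nat.Coprime a b := Nat.isCoprime_iff_coprime.1
  rcases h with ⟨rfl, rfl⟩ | ⟨rfl, rfl⟩ | ⟨rfl, rfl⟩ | ⟨rfl, rfl⟩ | ⟨rfl, rfl⟩ | ⟨rfl, rfl⟩
  · refine ⟨(a, b), 0, true, ha, hb, cop ⟨u, v, huv⟩, ?_, ⟨0, 1, by decide, ?_, ?_⟩, ?_, ?_⟩
    · unfold zr; congr 1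
    · simp [zr, num0]
    · simp [zr, num1]
    · simp
    · intro g; simp [dec]
  · refine ⟨(a, b), 0, false, ha, hb, cop ⟨-u, -v, by linarith⟩, ?_, ⟨0, 1, by decide, ?_, ?_⟩, ?_, ?_⟩
    · unfold zr; congr 1
      rw [show (-(a : ℤ) * -(b : ℤ) * (-(a : ℤ) + -(b : ℤ))) = -((a * b * (a + b) : ℕ) : ℤ) by push_cast; ring,
        Int.natAbs_neg, Int.natAbs_natCast]
    · simp [zr, num0]
    · simp [zr, num1]
    · simp
    · intro g; simp [dec]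
  · refine ⟨(a, b), 1, true, ha, hb, cop ⟨u - v, -v, by linarith⟩, ?_, ⟨0, 2, by decide, ?_, ?_⟩, ?_, ?_⟩
    · unfold zr; congr 1
      rw [show ((a : ℤ) * -((a : ℤ) + b) * ((a : ℤ) + -((a : ℤ) + b))) = ((a * b * (a + b) : ℕ) : ℤ) by push_cast; ring,
        Int.natAbs_natCast]
    · simp [zr, num0]
    · simp only [zr, num2, Int.natAbs_neg, e1]
    · simp only [Int.natAbs_neg, e1, Int.natAbs_natCast]; omega
    · intro g; simp [dec]; ring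
  · refine ⟨(a, b), 1, false, ha, hb, cop ⟨v - u, v, by linarith⟩, ?_, ⟨0, 2, by decide, ?_, ?_⟩, ?_, ?_⟩
    · unfold zr; congr 1
      rw [show (-(a : ℤ) * ((a : ℤ) + b) * (-(a : ℤ) + ((a : ℤ) + b))) = -((a * b * (a + b) : ℕ) : ℤ) by push_cast; ring,
        Int.natAbs_neg, Int.natAbs_natCast]
    · simp [zr, num0]
    · simp only [zr, num2, e1]
    · simp only [Int.natAbs_neg, e1, Int.natAbs_natCast]; omega
    · intro g; simp [dec]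
  · refine ⟨(a, b), 2, false, ha, hb, cop ⟨u - v, u, by linarith⟩, ?_, ⟨2, 0, by decide, ?_, ?_⟩, ?_, ?_⟩
    · unfold zr; congr 1
      rw [show (((a : ℤ) + b) * -(a : ℤ) * ((a : ℤ) + b + -(a : ℤ))) = -((a * b * (a + b) : ℕ) : ℤ) by push_cast; ring,
        Int.natAbs_neg, Int.natAbs_natCast]
    · simp only [zr, num2, e1]
    · simp [zr, num0]
    · simp only [Int.natAbs_neg, e1, Int.natAbs_natCast]; omega
    · intro g; simp [dec]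
  · refine ⟨(a, b), 2, true, ha, hb, cop ⟨v - u, -u, by linarith⟩, ?_, ⟨2, 0, by decide, ?_, ?_⟩, ?_, ?_⟩
    · unfold zr; congr 1
      rw [show (-((a : ℤ) + b) * (a : ℤ) * (-((a : ℤ) + b) + (a : ℤ))) = ((a * b * (a + b) : ℕ) : ℤ) by push_cast; ring,
        Int.natAbs_natCast]
    · simp only [zr, num2, Int.natAbs_neg, e1]
    · simp [zr, num0]
    · simp only [Int.natAbs_neg, e1, Int.natAbs_natCast]; omega
    · intro g; simp [dec]; ring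

lemma code_exists {x y : ℤ} (hx : x ≠ 0) (hy : y ≠ 0) (hxy : x + y ≠ 0) (hc : IsCoprime x y) :
    Coded x y := by
  rcases lt_or_gt_of_ne hx with h1 | h1 <;> rcases lt_or_gt_of_ne hy with h2 | h2 <;>
    rcases lt_or_gt_of_ne hxy with h3 | h3
  · exact coded_of x.natAbs y.natAbs (by omega) (by omega) hc (by omega)
  · omega
  · exact coded_of y.natAbs (x + y).natAbs (by omega) (by omega) hc (by omega)
  · exact coded_of x.natAbs (x + y).natAbs (by omega) (by omega) hc (by omega)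
  · exact coded_of x.natAbs (x + y).natAbs (by omega) (by omega) hc (by omega)
  · exact coded_of y.natAbs (x + y).natAbs (by omega) (by omega) hc (by omega)
  · omega
  · exact coded_of x.natAbs y.natAbs (by omega) (by omega) hc (by omega)

/-- **pairs of integers with bounded greatest common divisor** -/
theorem pairs_fam (ε : ℝ) (hε : 0 < ε) : ∃ M m : ℕ, ∃ C : ℝ, 1 ≤ M ∧ 0 < C ∧
    ∀ X R₁ R₂ D : ℕ, 1 ≤ X → 1 ≤ R₁ → 1 ≤ R₂ → 1 ≤ D → ∀ (F₁ F₂ : ℕ → Prop) (G₁ G₂ α₁ α₂ : ℝ),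
    Fml F₁ G₁ α₁ → Fml F₂ G₂ α₂ → ∀ Q : Finset (ℤ × ℤ),
    (∀ p ∈ Q, p.1 ≠ 0 ∧ p.2 ≠ 0 ∧ p.1 + p.2 ≠ 0 ∧ Int.gcd p.1 p.2 ≤ D ∧
      zr (p.1 * p.2 * (p.1 + p.2)) ≤ X ∧
      D * zr (p.1 * p.2 * (p.1 + p.2)) ^ M ≤ max p.1.natAbs p.2.natAbs ∧
      zr p.1 ≤ R₁ ∧ zr p.2 ≤ R₂ ∧ F₁ (zr p.1) ∧ F₂ (zr p.2)) →
    (Q.card : ℝ) ≤ C * (D + 1) * (G₁ * G₂) ^ m * (X : ℝ) ^ ε *
      Real.sqrt ((R₁ : ℝ) ^ α₁ * (R₂ : ℝ) ^ α₂) := by
  classical
  obtain ⟨M, m, C, hM, hC, h⟩ := fam_exceptions ε hε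
  refine ⟨M, m, 6 * C, hM, by positivity, ?_⟩
  intro X R₁ R₂ D hX hR₁ hR₂ hD F₁ F₂ G₁ G₂ α₁ α₂ hF₁ hF₂ Q hQ
  -- the coded triples
  have key : ∀ p ∈ Q, ∃ (q : ℕ × ℕ) (g : ℕ) (c : Fin 3) (s : Bool), g ≤ D ∧ dec (q, g, c, s) = p ∧
      (0 < q.1 ∧ 0 < q.2 ∧ Nat.Coprime q.1 q.2 ∧ rad (q.1 * q.2 * (q.1 + q.2)) ≤ X ∧
      (∃ i j, i ≠ j ∧ (rad (num (tri q) i) ≤ R₁ ∧ rad (num (tri q) j) ≤ R₂) ∧
        (F₁ (rad (num (tri q) i)) ∧ F₂ (rad (num (tri q) j)))) ∧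
      rad (q.1 * q.2 * (q.1 + q.2)) ^ M ≤ q.1 + q.2) := by
    intro p hp
    obtain ⟨h1, h2, h3, h4, h5, h6, h7, h8, h9, h10⟩ := hQ p hp
    obtain ⟨g, hg⟩ : ∃ g, g = Int.gcd p.1 p.2 := ⟨_, rfl⟩
    have hg0 : 0 < g := by rw [hg]; exact Int.gcd_pos_of_ne_zero_left _ h1
    obtain ⟨x, hx⟩ : (g : ℤ) ∣ p.1 := by rw [hg]; exact Int.gcd_dvd_left _ _
    obtain ⟨y, hy⟩ : (g : ℤ) ∣ p.2 := by rw [hg]; exact Int.gcd_dvd_right _ _
    have hcop : IsCoprime x y := by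
      rw [Int.isCoprime_iff_gcd_eq_one]
      have : g * Int.gcd x y = g * 1 := by
        rw [mul_one]
        conv_rhs => rw [hg, hx, hy, Int.gcd_mul_left, Int.natAbs_natCast]
      exact Nat.eq_of_mul_eq_mul_left hg0 this
    have hx0 : x ≠ 0 := by rintro rfl; exact h1 (by rw [hx, mul_zero])
    have hy0 : y ≠ 0 := by rintro rfl; exact h2 (by rw [hy, mul_zero])
    have hxy : x + y ≠ 0 := by
      intro h0
      apply h3
      rw [hx, hy, ← mul_add, h0, mul_zero]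
    obtain ⟨q, c, s, q1, q2, q3, q4, ⟨i, j, hij, q5, q6⟩, q7, q8⟩ := code_exists hx0 hy0 hxy hcop
    have hne : p.1 * p.2 * (p.1 + p.2) ≠ 0 := mul_ne_zero (mul_ne_zero h1 h2) h3
    have hdvd : x * y * (x + y) ∣ p.1 * p.2 * (p.1 + p.2) := by
      refine ⟨(g : ℤ) ^ 3, ?_⟩
      rw [hx, hy]; ring
    have hr : zr (x * y * (x + y)) ≤ zr (p.1 * p.2 * (p.1 + p.2)) := zr_le_of_dvd hne hdvd
    have hx1 : zr x ∣ zr p.1 := zr_dvd_of_dvd h1 ⟨g, by rw [hx]; ring⟩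
    have hy1 : zr y ∣ zr p.2 := zr_dvd_of_dvd h2 ⟨g, by rw [hy]; ring⟩
    refine ⟨q, g, c, s, by rw [hg]; exact h4, ?_, q1, q2, q3, by rw [q4]; exact hr.trans h5,
      ⟨i, j, hij, ⟨?_, ?_⟩, ?_, ?_⟩, ?_⟩
    · rw [q8 g, ← hx, ← hy]
    · rw [q5]; exact (Nat.le_of_dvd (zr_pos _) hx1).trans h7
    · rw [q6]; exact (Nat.le_of_dvd (zr_pos _) hy1).trans h8
    · rw [q5]; exact hF₁.her _ _ h9 hx1
    · rw [q6]; exact hF₂.her _ _ h10 hy1
    · rw [q4]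
      have e1 : max p.1.natAbs p.2.natAbs = g * max x.natAbs y.natAbs := by
        rw [hx, hy, Int.natAbs_mul, Int.natAbs_mul, Int.natAbs_natCast]
        exact (Nat.mul_max_mul_left _ _ _)
      have e2 : D * zr (x * y * (x + y)) ^ M ≤ D * max x.natAbs y.natAbs :=
        calc D * zr (x * y * (x + y)) ^ M ≤ D * zr (p.1 * p.2 * (p.1 + p.2)) ^ M :=
              Nat.mul_le_mul_left _ (Nat.pow_le_pow_left hr _)
          _ ≤ max p.1.natAbs p.2.natAbs := h6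
          _ = g * max x.natAbs y.natAbs := e1
          _ ≤ D * max x.natAbs y.natAbs := Nat.mul_le_mul_right _ (by rw [hg]; exact h4)
      exact (Nat.le_of_mul_le_mul_left e2 (by omega)).trans q7
  choose! fq fg fc fs k1 k2 k3 using key
  have h1 := h X R₁ R₂ hX hR₁ hR₂ F₁ F₂ G₁ G₂ α₁ α₂ hF₁ hF₂ (Q.image fq) (by
    intro q hq
    obtain ⟨p, hp, rfl⟩ := Finset.mem_image.1 hq
    exact k3 p hp)
  have h2 : Q ⊆ ((Q.image fq) ×ˢ (Finset.range (D + 1)) ×ˢ (Finset.univ : Finset (Fin 3)) ×ˢ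
      (Finset.univ : Finset Bool)).image dec := by
    intro p hp
    refine Finset.mem_image.2 ⟨(fq p, fg p, fc p, fs p), ?_, k2 p hp⟩
    simp only [Finset.mem_product, Finset.mem_range, Finset.mem_univ, and_true]
    exact ⟨Finset.mem_image_of_mem _ hp, by have := k1 p hp; omega⟩
  have h3 : Q.card ≤ (Q.image fq).card * ((D + 1) * (3 * 2)) := by
    refine (Finset.card_le_card h2).trans (Finset.card_image_le.trans ?_)
    rw [Finset.card_product, Finset.card_product, Finset.card_product, Finset.card_range,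
      Finset.card_univ, Finset.card_univ, Fintype.card_fin, Fintype.card_bool]
  have h4 : (Q.card : ℝ) ≤ ((Q.image fq).card : ℝ) * (((D : ℝ) + 1) * 6) := by
    have : (Q.card : ℝ) ≤ (((Q.image fq).card * ((D + 1) * (3 * 2)) : ℕ) : ℝ) := by exact_mod_cast h3
    refine this.trans (le_of_eq ?_)
    push_cast; ring
  calc (Q.card : ℝ) ≤ ((Q.image fq).card : ℝ) * (((D : ℝ) + 1) * 6) := h4
    _ ≤ (C * (G₁ * G₂) ^ m * (X : ℝ) ^ ε * Real.sqrt ((R₁ : ℝ) ^ α₁ * (R₂ : ℝ) ^ α₂)) *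
        (((D : ℝ) + 1) * 6) := mul_le_mul_of_nonneg_right h1 (by positivity)
    _ = 6 * C * (D + 1) * (G₁ * G₂) ^ m * (X : ℝ) ^ ε *
        Real.sqrt ((R₁ : ℝ) ^ α₁ * (R₂ : ℝ) ^ α₂) := by ring

end Pool.Agent.H583.SF
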