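import Pool.Agent.H583.SF.Basic

/-!
Radicals of products of numbers with bounded greatest common divisors, small factors, dyadic bounds,
enlarged families.
-/

set_option autoImplicit false

namespace Pool.Agent.H583.SF

open Finset Pool.Agent.T2H20.ABC Pool.Agent.T2H20.AH Pool.Agent.H785R2.ABC

lemma gcd_prod_dvd {ι : Type*} (a : ℕ) (s : Finset ι) (n : ι → ℕ) :
    Nat.gcd a (∏ i ∈ s, n i) ∣ ∏ i ∈ s, Nat.gcd a (n i) := by
  classical
  induction s using Finset.induction_on with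
  | empty => simp
  | insert b s hb ih =>
    rw [Finset.prod_insert hb, Finset.prod_insert hb]
    exact (gcd_mul_dvd_mul_gcd a (n b) (∏ i ∈ s, n i)).trans (mul_dvd_mul_left _ ih)

lemma prod_rad_le_aux {k : ℕ} (n : Fin k → ℕ) (hn : ∀ i, n i ≠ 0) (Δ : ℕ) (hΔ : 1 ≤ Δ)
    (h : ∀ i j, i ≠ j → Nat.gcd (n i) (n j) ≤ Δ) (s : Finset (Fin k)) :
    ∏ i ∈ s, rad (n i) ≤ (Δ ^ k) ^ s.card * rad (∏ i ∈ s, n i) := by
  classical
  induction s using Finset.induction_on with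
  | empty => simp [rad]
  | insert b s hb ih =>
    rw [Finset.prod_insert hb, Finset.prod_insert hb, Finset.card_insert_of_notMem hb]
    have hP : ∏ i ∈ s, n i ≠ 0 := Finset.prod_ne_zero_iff.2 fun i _ => hn i
    have h1 : rad (Nat.gcd (n b) (∏ i ∈ s, n i)) ≤ Δ ^ k := by
      have hg : Nat.gcd (n b) (∏ i ∈ s, n i) ≠ 0 := Nat.gcd_ne_zero_left (hn b)
      refine (rad_le_self hg).trans ?_
      refine (Nat.le_of_dvd (Finset.prod_pos fun i _ => Nat.gcd_pos_of_pos_left _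
        (Nat.pos_of_ne_zero (hn b))) (gcd_prod_dvd (n b) s n)).trans ?_
      calc ∏ i ∈ s, Nat.gcd (n b) (n i) ≤ ∏ _i ∈ s, Δ := Finset.prod_le_prod' fun i hi =>
            h b i (by rintro rfl; exact hb hi)
        _ = Δ ^ s.card := by rw [Finset.prod_const]
        _ ≤ Δ ^ k := Nat.pow_le_pow_right hΔ (by simpa using Finset.card_le_univ s)
    calc rad (n b) * ∏ i ∈ s, rad (n i) ≤ rad (n b) * ((Δ ^ k) ^ s.card * rad (∏ i ∈ s, n i)) :=
          Nat.mul_le_mul_left _ ih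
      _ = (Δ ^ k) ^ s.card * (rad (n b) * rad (∏ i ∈ s, n i)) := by ring
      _ = (Δ ^ k) ^ s.card * (rad (n b * ∏ i ∈ s, n i) * rad (Nat.gcd (n b) (∏ i ∈ s, n i))) := by
          rw [rad_mul_rad (hn b) hP]
      _ ≤ (Δ ^ k) ^ s.card * (rad (n b * ∏ i ∈ s, n i) * Δ ^ k) :=
          Nat.mul_le_mul_left _ (Nat.mul_le_mul_left _ h1)
      _ = (Δ ^ k) ^ (s.card + 1) * rad (n b * ∏ i ∈ s, n i) := by ring

lemma prod_rad_le {k : ℕ} (n : Fin k → ℕ) (hn : ∀ i, n i ≠ 0) (Δ : ℕ) (hΔ : 1 ≤ Δ)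
    (h : ∀ i j, i ≠ j → Nat.gcd (n i) (n j) ≤ Δ) :
    ∏ i, rad (n i) ≤ (Δ ^ k) ^ k * rad (∏ i, n i) := by
  have := prod_rad_le_aux n hn Δ hΔ h Finset.univ
  rwa [Finset.card_univ, Fintype.card_fin] at this

lemma exists_pair {k : ℕ} (hk : 2 ≤ k) (r : Fin k → ℕ) (hr : ∀ i, 1 ≤ r i) (Y : ℕ)
    (h : ∏ i, r i ≤ Y) : ∃ i j, i ≠ j ∧ (r i * r j) ^ k ≤ Y ^ 2 := by
  obtain ⟨n, rfl⟩ : ∃ n, k = n + 2 := ⟨k - 2, by omega⟩
  by_contra hcon
  push Not at hcon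
  have hne : ∀ i : Fin (n + 2), i ≠ finRotate (n + 2) i := by
    intro i hi
    rw [finRotate_apply] at hi
    have := congrArg Fin.val hi
    rw [Fin.val_add_one] at this
    split_ifs at this with h0
    · rw [h0] at this; simp at this
    · omega
  have hY : 0 < Y := lt_of_lt_of_le (Finset.prod_pos fun i _ => hr i) h
  have h1 : ∏ _i : Fin (n + 2), Y ^ 2 < ∏ i : Fin (n + 2), (r i * r (finRotate (n + 2) i)) ^ (n + 2) :=
    Finset.prod_lt_prod_of_nonempty (fun i _ => by positivity)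
      (fun i _ => hcon i _ (hne i)) ⟨0, Finset.mem_univ _⟩
  have e1 : ∏ i : Fin (n + 2), (r i * r (finRotate (n + 2) i)) ^ (n + 2) =
      ((∏ i, r i) * (∏ i, r i)) ^ (n + 2) := by
    rw [Finset.prod_pow, Finset.prod_mul_distrib, Equiv.prod_comp (finRotate (n + 2)) r]
  have e2 : ∏ _i : Fin (n + 2), Y ^ 2 = (Y ^ 2) ^ (n + 2) := by
    rw [Finset.prod_const, Finset.card_univ, Fintype.card_fin]
  rw [e1, e2] at h1
  have h2 : (∏ i, r i) * (∏ i, r i) ≤ Y ^ 2 := by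
    rw [pow_two]; exact Nat.mul_le_mul h h
  exact absurd (Nat.pow_le_pow_left h2 (n + 2)) (not_le.2 h1)

lemma exists_single {k : ℕ} (hk : 1 ≤ k) (r : Fin k → ℕ) (Y : ℕ) (hY : 0 < Y)
    (h : ∏ i, r i ≤ Y) : ∃ i, r i ^ k ≤ Y := by
  by_contra hcon
  push Not at hcon
  have h1 : ∏ _i : Fin k, Y < ∏ i : Fin k, (r i) ^ k :=
    Finset.prod_lt_prod_of_nonempty (fun i _ => hY) (fun i _ => hcon i)
      ⟨⟨0, by omega⟩, Finset.mem_univ _⟩
  rw [Finset.prod_pow, Finset.prod_const, Finset.card_univ, Fintype.card_fin] at h1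
  exact absurd (Nat.pow_le_pow_left h k) (not_le.2 h1)

lemma dyadic {r : ℕ} (hr : 1 ≤ r) : ∃ s, r ≤ 2 ^ s ∧ 2 ^ s ≤ 2 * r ∧ s = Nat.log 2 r + 1 := by
  refine ⟨Nat.log 2 r + 1, (Nat.lt_pow_succ_log_self (by norm_num) r).le, ?_, rfl⟩
  rw [pow_succ, mul_comm]
  exact Nat.mul_le_mul_left _ (Nat.pow_log_le_self 2 (by omega))

/-- the divisors of `m * δ`, `m` in the family -/
def enl (F : ℕ → Prop) (δ : ℕ) (n : ℕ) : Prop := ∃ m, F m ∧ n ∣ m * δ

lemma fml_enl {F : ℕ → Prop} {G α : ℝ} (hF : Fml F G α) {δ : ℕ} (hδ : δ ≠ 0) :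
    Fml (enl F δ) (δ.divisors.card * G) α := by
  classical
  have hG1 := hF.G1
  refine ⟨?_, ?_, hF.a0, hF.a1, ?_⟩
  · rintro m n ⟨l, hl, hn⟩ hmn
    exact ⟨l, hl, hmn.trans hn⟩
  · have : 1 ≤ δ.divisors.card := Finset.card_pos.2 ⟨1, Nat.one_mem_divisors.2 hδ⟩
    have h2 : (1 : ℝ) ≤ δ.divisors.card := by exact_mod_cast this
    nlinarith
  · intro Y S hY hS
    have key : ∀ s ∈ S, ∃ a b, a * b = s ∧ (1 ≤ a ∧ a ≤ Y ∧ F a) ∧ b ∈ δ.divisors := by
      intro s hs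
      obtain ⟨h1, h2, l, hl, h3⟩ := hS s hs
      obtain ⟨a, b, ha, hb, rfl⟩ := (Nat.dvd_mul).1 h3
      have ha0 : a ≠ 0 := by rintro rfl; simp at h1
      have hb0 : b ≠ 0 := by rintro rfl; simp at h1
      refine ⟨a, b, rfl, ⟨by omega, ?_, hF.her _ _ hl ha⟩, Nat.mem_divisors.2 ⟨hb, hδ⟩⟩
      exact (Nat.le_mul_of_pos_right _ (by omega)).trans h2
    choose! fa fb k1 k2 k3 using key
    have h1 : (((S.image fa).card : ℕ) : ℝ) ≤ G * (Y : ℝ) ^ α := hF.cnt Y (S.image fa) hY (by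
      intro a ha
      obtain ⟨s, hs, rfl⟩ := Finset.mem_image.1 ha
      exact k2 s hs)
    have h2 : S ⊆ ((S.image fa) ×ˢ δ.divisors).image (fun t => t.1 * t.2) := by
      intro s hs
      exact Finset.mem_image.2 ⟨(fa s, fb s), Finset.mem_product.2
        ⟨Finset.mem_image_of_mem _ hs, k3 s hs⟩, k1 s hs⟩
    have h3 : S.card ≤ (S.image fa).card * δ.divisors.card := by
      refine (Finset.card_le_card h2).trans (Finset.card_image_le.trans ?_)
      rw [Finset.card_product]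
    calc (S.card : ℝ) ≤ ((S.image fa).card : ℝ) * δ.divisors.card := by exact_mod_cast h3
      _ ≤ (G * (Y : ℝ) ^ α) * δ.divisors.card := mul_le_mul_of_nonneg_right h1 (by positivity)
      _ = δ.divisors.card * G * (Y : ℝ) ^ α := by ring

end Pool.Agent.H583.SF
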