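import Pool.Agent.H583.SF.Comb

/-!
Values of products of linear forms: the exceptions to `max (|u|, |v|) < rad (F (u, v)) ^ M`.
-/

set_option autoImplicit false

namespace Pool.Agent.H583.SF

open Finset Pool.Agent.T2H20.ABC Pool.Agent.T2H20.AH Pool.Agent.H785R2.ABC

/-- the value of the `i`-th linear form -/
def val {k : ℕ} (L : Fin k → ℤ × ℤ) (i : Fin k) (p : ℤ × ℤ) : ℤ := (L i).1 * p.1 + (L i).2 * p.2

/-- the determinant of two of the linear forms -/
def det {k : ℕ} (L : Fin k → ℤ × ℤ) (i j : Fin k) : ℤ := (L i).1 * (L j).2 - (L j).1 * (L i).2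

section
variable {k : ℕ} (L : Fin k → ℤ × ℤ)

lemma rel (i j l : Fin k) (p : ℤ × ℤ) :
    det L j l * val L i p + det L l i * val L j p = -(det L i j * val L l p) := by
  unfold det val; ring

lemma cramer1 (i j : Fin k) (p : ℤ × ℤ) :
    det L i j * p.1 = (L j).2 * val L i p - (L i).2 * val L j p := by
  unfold det val; ring

lemma cramer2 (i j : Fin k) (p : ℤ × ℤ) :
    det L i j * p.2 = (L i).1 * val L j p - (L j).1 * val L i p := by
  unfold det val; ring

lemma gcd_dvd_det (i j : Fin k) {p : ℤ × ℤ} (hp : IsCoprime p.1 p.2) :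
    (Int.gcd (val L i p) (val L j p) : ℤ) ∣ det L i j := by
  obtain ⟨a, b, hab⟩ := hp
  have h1 : (Int.gcd (val L i p) (val L j p) : ℤ) ∣ det L i j * p.1 := by
    rw [cramer1]
    exact dvd_sub (Dvd.dvd.mul_left (Int.gcd_dvd_left _ _) _) (Dvd.dvd.mul_left (Int.gcd_dvd_right _ _) _)
  have h2 : (Int.gcd (val L i p) (val L j p) : ℤ) ∣ det L i j * p.2 := by
    rw [cramer2]
    exact dvd_sub (Dvd.dvd.mul_left (Int.gcd_dvd_right _ _) _) (Dvd.dvd.mul_left (Int.gcd_dvd_left _ _) _)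
  have h3 : det L i j = a * (det L i j * p.1) + b * (det L i j * p.2) := by linear_combination (-(det L i j)) * hab
  rw [h3]
  exact dvd_add (Dvd.dvd.mul_left h1 _) (Dvd.dvd.mul_left h2 _)

/-- a constant which bounds everything that depends on the forms only -/
lemma exists_const : ∃ Δ : ℕ, 1 ≤ Δ ∧ (∀ i j l, (det L j l * det L l i * det L i j).natAbs ≤ Δ) ∧
    (∀ i j, (det L i j).natAbs ≤ Δ) ∧ (∀ i, (L i).1.natAbs ≤ Δ ∧ (L i).2.natAbs ≤ Δ) := by
  classical
  set B1 := ∑ t : Fin k × Fin k × Fin k,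
    (det L t.2.1 t.2.2 * det L t.2.2 t.1 * det L t.1 t.2.1).natAbs with hB1
  set B2 := ∑ t : Fin k × Fin k, (det L t.1 t.2).natAbs with hB2
  set B3 := ∑ i : Fin k, ((L i).1.natAbs + (L i).2.natAbs) with hB3
  refine ⟨B1 + B2 + B3 + 1, by omega, ?_, ?_, ?_⟩
  · intro i j l
    have := Finset.single_le_sum (f := fun t : Fin k × Fin k × Fin k =>
      (det L t.2.1 t.2.2 * det L t.2.2 t.1 * det L t.1 t.2.1).natAbs) (fun _ _ => Nat.zero_le _)
      (Finset.mem_univ (i, j, l))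
    simp only [← hB1] at this
    omega
  · intro i j
    have := Finset.single_le_sum (f := fun t : Fin k × Fin k => (det L t.1 t.2).natAbs)
      (fun _ _ => Nat.zero_le _) (Finset.mem_univ (i, j))
    simp only [← hB2] at this
    omega
  · intro i
    have := Finset.single_le_sum (f := fun i : Fin k => (L i).1.natAbs + (L i).2.natAbs)
      (fun _ _ => Nat.zero_le _) (Finset.mem_univ i)
    simp only [← hB3] at this
    omega

lemma max_le_of_coords {Δ : ℕ} (i j : Fin k) (hd : det L i j ≠ 0)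
    (hi : (L i).1.natAbs ≤ Δ ∧ (L i).2.natAbs ≤ Δ) (hj : (L j).1.natAbs ≤ Δ ∧ (L j).2.natAbs ≤ Δ)
    (p : ℤ × ℤ) : max p.1.natAbs p.2.natAbs ≤
      2 * Δ * max (val L i p).natAbs (val L j p).natAbs := by
  have hd1 : 1 ≤ (det L i j).natAbs := Nat.one_le_iff_ne_zero.2 (Int.natAbs_ne_zero.2 hd)
  have key : ∀ (z a b : ℤ), det L i j * z = a * val L i p - b * val L j p → a.natAbs ≤ Δ →
      b.natAbs ≤ Δ → z.natAbs ≤ 2 * Δ * max (val L i p).natAbs (val L j p).natAbs := by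
    intro z a b h ha hb
    have h1 : (det L i j * z).natAbs ≤ a.natAbs * (val L i p).natAbs + b.natAbs * (val L j p).natAbs := by
      rw [h, ← Int.natAbs_mul, ← Int.natAbs_mul]; exact Int.natAbs_sub_le _ _
    calc z.natAbs ≤ (det L i j).natAbs * z.natAbs := Nat.le_mul_of_pos_left _ hd1
      _ = (det L i j * z).natAbs := (Int.natAbs_mul _ _).symm
      _ ≤ a.natAbs * (val L i p).natAbs + b.natAbs * (val L j p).natAbs := h1
      _ ≤ Δ * max (val L i p).natAbs (val L j p).natAbs +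
          Δ * max (val L i p).natAbs (val L j p).natAbs :=
        Nat.add_le_add (Nat.mul_le_mul ha (le_max_left _ _)) (Nat.mul_le_mul hb (le_max_right _ _))
      _ = 2 * Δ * max (val L i p).natAbs (val L j p).natAbs := by ring
  refine max_le ?_ ?_
  · exact key p.1 (L j).2 (L i).2 (cramer1 L i j p) hj.2 hi.2
  · refine key p.2 (-(L j).1) (-(L i).1) ?_ (by rw [Int.natAbs_neg]; exact hj.1)
      (by rw [Int.natAbs_neg]; exact hi.1)
    rw [cramer2]; ring

end

lemma natAbs_eq_one_of_zr {n : ℤ} (hn : n ≠ 0) (h : zr n = 1) : n = 1 ∨ n = -1 := by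
  rw [← Int.natAbs_eq_natAbs_iff, Int.natAbs_one]
  by_contra hcon
  obtain ⟨p, hp, hpd⟩ := Nat.exists_prime_and_dvd hcon
  have h1 : p ∣ rad n.natAbs := Finset.dvd_prod_of_mem _
    (Nat.mem_primeFactors.2 ⟨hp, hpd, Int.natAbs_ne_zero.2 hn⟩)
  have h2 : rad n.natAbs = 1 := h
  rw [h2] at h1
  exact hp.one_lt.ne' (Nat.dvd_one.1 h1)

lemma log_bound (δ : ℝ) (hδ : 0 < δ) : ∃ C : ℝ, 0 < C ∧ ∀ X : ℕ, 1 ≤ X →
    ((Nat.log 2 X + 2 : ℕ) : ℝ) ≤ C * (X : ℝ) ^ δ := by
  refine ⟨2 / (δ * Real.log 2) + 2, by have := Real.log_pos one_lt_two; positivity, ?_⟩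
  intro X hX
  have hX1 : (1 : ℝ) ≤ X := by exact_mod_cast hX
  have hX0 : (0 : ℝ) < X := by linarith
  have hl2 := Real.log_pos one_lt_two
  have h1 : (Nat.log 2 X : ℝ) * Real.log 2 ≤ Real.log X := by
    rw [← Real.log_pow]
    apply Real.log_le_log (by positivity)
    exact_mod_cast Nat.pow_log_le_self 2 (by omega)
  have h2 : Real.log X ≤ (X : ℝ) ^ δ / δ := Real.log_le_rpow_div hX0.le hδ
  have h3 : (Nat.log 2 X : ℝ) ≤ (X : ℝ) ^ δ / (δ * Real.log 2) := by
    rw [le_div_iff₀ (by positivity)]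
    calc (Nat.log 2 X : ℝ) * (δ * Real.log 2) = δ * ((Nat.log 2 X : ℝ) * Real.log 2) := by ring
      _ ≤ δ * ((X : ℝ) ^ δ / δ) := mul_le_mul_of_nonneg_left (h1.trans h2) hδ.le
      _ = (X : ℝ) ^ δ := by field_simp
  have h4 : (1 : ℝ) ≤ (X : ℝ) ^ δ := Real.one_le_rpow hX1 hδ.le
  push_cast
  have h5 : (X : ℝ) ^ δ / (δ * Real.log 2) ≤ 2 / (δ * Real.log 2) * (X : ℝ) ^ δ := by
    rw [div_mul_eq_mul_div]
    apply div_le_div_of_nonneg_right _ (by positivity)
    linarith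
  linarith

/-- the bound for one pair of forms and one pair of dyadic bounds of the radicals -/
theorem one_box (k : ℕ) (hk : 3 ≤ k) (L : Fin k → ℤ × ℤ) (hL : ∀ i j, i ≠ j → det L i j ≠ 0)
    (ε : ℝ) (hε : 0 < ε) : ∃ M m : ℕ, ∃ C : ℝ, 1 ≤ M ∧ 0 < C ∧ ∀ (X R₁ R₂ : ℕ), 1 ≤ X → 1 ≤ R₁ →
    1 ≤ R₂ → ∀ (F : ℕ → Prop) (G α : ℝ), Fml F G α → ∀ (i j : Fin k), i ≠ j → ∀ Q : Finset (ℤ × ℤ),
    (∀ p ∈ Q, IsCoprime p.1 p.2 ∧ ∏ i, val L i p ≠ 0 ∧ zr (∏ i, val L i p) ≤ X ∧
      2 ≤ zr (∏ i, val L i p) ∧ zr (∏ i, val L i p) ^ M ≤ max p.1.natAbs p.2.natAbs ∧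
      F (zr (∏ i, val L i p)) ∧ zr (val L i p) ≤ R₁ ∧ zr (val L j p) ≤ R₂) →
    (Q.card : ℝ) ≤ C * G ^ m * (X : ℝ) ^ ε * Real.sqrt (((R₁ : ℝ) * R₂) ^ α) := by
  classical
  obtain ⟨M₀, m₀, C₀, hM₀, hC₀, h0⟩ := pairs_fam ε hε
  obtain ⟨Δ, hΔ, hΔ1, hΔ2, hΔ3⟩ := exists_const L
  obtain ⟨E, hE⟩ : ∃ E, 2 * Δ ^ (M₀ + 2) ≤ 2 ^ E := ⟨2 * Δ ^ (M₀ + 2), Nat.lt_two_pow_self.le⟩
  have hΔr : (1 : ℝ) ≤ Δ := by exact_mod_cast hΔ
  set c : ℝ := ((Nat.factorial Δ).divisors.card : ℝ) with hc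
  have hc1 : (1 : ℝ) ≤ c := by
    have : 1 ≤ (Nat.factorial Δ).divisors.card :=
      Finset.card_pos.2 ⟨1, Nat.one_mem_divisors.2 (Nat.factorial_ne_zero _)⟩
    rw [hc]
    exact_mod_cast this
  refine ⟨M₀ + E, 2 * m₀, C₀ * (Δ + 1) * c ^ (2 * m₀) * (Δ : ℝ) ^ ε * Δ, by omega, by positivity, ?_⟩
  intro X R₁ R₂ hX hR₁ hR₂ F G α hF i j hij Q hQ
  obtain ⟨l, hli, hlj⟩ : ∃ l : Fin k, l ≠ i ∧ l ≠ j := by
    have : (({i, j} : Finset (Fin k)))ᶜ.Nonempty := by
      rw [← Finset.card_pos, Finset.card_compl, Fintype.card_fin]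
      have := Finset.card_le_two (a := i) (b := j)
      omega
    obtain ⟨l, hl⟩ := this
    rw [Finset.mem_compl, Finset.mem_insert, Finset.mem_singleton, not_or] at hl
    exact ⟨l, hl.1, hl.2⟩
  have hG1 := hF.G1
  have ha0 := hF.a0
  have ha1 := hF.a1
  have dij := hL i j hij
  have djl := hL j l hlj.symm
  have dli := hL l i hli
  -- the map to pairs
  set f : ℤ × ℤ → ℤ × ℤ := fun p => (det L j l * val L i p, det L l i * val L j p) with hf
  have hinj : Function.Injective f := by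
    intro p q hpq
    have h1 := congrArg Prod.fst hpq
    have h2 := congrArg Prod.snd hpq
    simp only [hf] at h1 h2
    have e1 : val L i p = val L i q := mul_left_cancel₀ djl h1
    have e2 : val L j p = val L j q := mul_left_cancel₀ dli h2
    have e3 : p.1 = q.1 := mul_left_cancel₀ dij (by rw [cramer1, cramer1, e1, e2])
    have e4 : p.2 = q.2 := mul_left_cancel₀ dij (by rw [cramer2, cramer2, e1, e2])
    exact Prod.ext e3 e4
  have hfam := fml_enl hF (Nat.factorial_ne_zero Δ)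
  have h1 := h0 (Δ * X) (Δ * R₁) (Δ * R₂) Δ (Nat.mul_pos hΔ hX) (Nat.mul_pos hΔ hR₁)
    (Nat.mul_pos hΔ hR₂) hΔ (enl F Δ.factorial) (enl F Δ.factorial) _ _ α α hfam hfam (Q.image f) (by
    intro q hq
    obtain ⟨p, hp, rfl⟩ := Finset.mem_image.1 hq
    obtain ⟨p1, p2, p3, p4, p5, p6, p7, p8⟩ := hQ p hp
    have vne : ∀ i, val L i p ≠ 0 := fun i => (Finset.prod_ne_zero_iff.1 p2) i (Finset.mem_univ _)
    have vdvd : ∀ i, val L i p ∣ ∏ i, val L i p := fun i => Finset.dvd_prod_of_mem _ (Finset.mem_univ _)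
    have zrd : ∀ i j, det L i j ≠ 0 → zr (det L i j) ≤ Δ := fun i j h =>
      (rad_le_self (Int.natAbs_ne_zero.2 h)).trans (hΔ2 i j)
    have hsum : det L j l * val L i p + det L l i * val L j p = -(det L i j * val L l p) := rel L i j l p
    have hmulle : ∀ a b : ℤ, a ≠ 0 → b ≠ 0 → zr (a * b) ≤ zr a * zr b := by
      intro a b ha hb
      unfold zr
      rw [Int.natAbs_mul]
      exact rad_mul_le (Int.natAbs_ne_zero.2 ha) (Int.natAbs_ne_zero.2 hb)
    have hmuldvd : ∀ a b : ℤ, a ≠ 0 → b ≠ 0 → zr (a * b) ∣ zr b * zr a := by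
      intro a b ha hb
      unfold zr
      rw [Int.natAbs_mul, mul_comm (rad b.natAbs),
        rad_mul_rad (Int.natAbs_ne_zero.2 ha) (Int.natAbs_ne_zero.2 hb)]
      exact Dvd.intro _ rfl
    -- the product of the three members
    have hthree : ∃ e : ℤ, e ≠ 0 ∧ e.natAbs ≤ Δ ∧
        det L j l * val L i p * (det L l i * val L j p) *
          (det L j l * val L i p + det L l i * val L j p) =
        e * (val L i p * val L j p * val L l p) := by
      refine ⟨-(det L j l * det L l i * det L i j),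
        neg_ne_zero.2 (mul_ne_zero (mul_ne_zero djl dli) dij), by rw [Int.natAbs_neg]; exact hΔ1 i j l, ?_⟩
      rw [hsum]; ring
    obtain ⟨e, he0, heΔ, he⟩ := hthree
    have h3ne : val L i p * val L j p * val L l p ≠ 0 := mul_ne_zero (mul_ne_zero (vne i) (vne j)) (vne l)
    have h3dvd : val L i p * val L j p * val L l p ∣ ∏ i, val L i p := by
      have : ∏ t ∈ ({i, j, l} : Finset (Fin k)), val L t p = val L i p * val L j p * val L l p := by
        rw [Finset.prod_insert (by simp [hij, hli.symm]), Finset.prod_insert (by simp [hlj.symm]),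
          Finset.prod_singleton, mul_assoc]
      rw [← this]
      exact Finset.prod_dvd_prod_of_subset _ _ _ (Finset.subset_univ _)
    have hr3 : zr (val L i p * val L j p * val L l p) ≤ zr (∏ i, val L i p) := zr_le_of_dvd p2 h3dvd
    have hrad : zr (det L j l * val L i p * (det L l i * val L j p) *
          (det L j l * val L i p + det L l i * val L j p)) ≤ Δ * zr (∏ i, val L i p) := by
      rw [he]
      refine (hmulle _ _ he0 h3ne).trans (Nat.mul_le_mul ?_ hr3)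
      exact (rad_le_self (Int.natAbs_ne_zero.2 he0)).trans heΔ
    refine ⟨mul_ne_zero djl (vne i), mul_ne_zero dli (vne j), ?_, ?_, hrad.trans (Nat.mul_le_mul_left _ p3),
      ?_, ?_, ?_, ?_, ?_⟩
    · show det L j l * val L i p + det L l i * val L j p ≠ 0
      rw [hsum]
      exact neg_ne_zero.2 (mul_ne_zero dij (vne l))
    · -- gcd
      show Int.gcd (det L j l * val L i p) (det L l i * val L j p) ≤ Δ
      obtain ⟨a', b', hab⟩ := p1
      set g := Int.gcd (det L j l * val L i p) (det L l i * val L j p) with hg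
      have g1 : (g : ℤ) ∣ det L j l * det L l i * val L i p := by
        rw [mul_assoc, mul_comm (det L l i), ← mul_assoc]
        exact Dvd.dvd.mul_right (Int.gcd_dvd_left _ _) _
      have g2 : (g : ℤ) ∣ det L j l * det L l i * val L j p := by
        rw [mul_assoc]
        exact Dvd.dvd.mul_left (Int.gcd_dvd_right _ _) _
      have g3 : (g : ℤ) ∣ det L j l * det L l i * (det L i j * p.1) := by
        rw [cramer1, mul_sub]
        refine dvd_sub ?_ ?_
        · rw [mul_left_comm]; exact Dvd.dvd.mul_left g1 _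
        · rw [mul_left_comm]; exact Dvd.dvd.mul_left g2 _
      have g4 : (g : ℤ) ∣ det L j l * det L l i * (det L i j * p.2) := by
        rw [cramer2, mul_sub]
        refine dvd_sub ?_ ?_
        · rw [mul_left_comm]; exact Dvd.dvd.mul_left g2 _
        · rw [mul_left_comm]; exact Dvd.dvd.mul_left g1 _
      have g5 : (g : ℤ) ∣ det L j l * det L l i * det L i j := by
        have : det L j l * det L l i * det L i j = a' * (det L j l * det L l i * (det L i j * p.1)) +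
            b' * (det L j l * det L l i * (det L i j * p.2)) := by
          linear_combination (-(det L j l * det L l i * det L i j)) * hab
        rw [this]
        exact dvd_add (Dvd.dvd.mul_left g3 _) (Dvd.dvd.mul_left g4 _)
      have g6 : g ∣ (det L j l * det L l i * det L i j).natAbs := by
        have := Int.natAbs_dvd_natAbs.2 g5
        rwa [Int.natAbs_natCast] at this
      exact (Nat.le_of_dvd (Nat.pos_of_ne_zero (Int.natAbs_ne_zero.2
        (mul_ne_zero (mul_ne_zero djl dli) dij))) g6).trans (hΔ1 i j l)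
    · -- height
      show Δ * zr (det L j l * val L i p * (det L l i * val L j p) *
          (det L j l * val L i p + det L l i * val L j p)) ^ M₀ ≤
        max (det L j l * val L i p).natAbs (det L l i * val L j p).natAbs
      set r := zr (∏ i, val L i p) with hr
      set S := zr (det L j l * val L i p * (det L l i * val L j p) *
          (det L j l * val L i p + det L l i * val L j p)) with hS
      have m1 : max (val L i p).natAbs (val L j p).natAbs ≤
          max (det L j l * val L i p).natAbs (det L l i * val L j p).natAbs := by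
        rw [Int.natAbs_mul, Int.natAbs_mul]
        exact max_le_max (Nat.le_mul_of_pos_left _ (Nat.pos_of_ne_zero (Int.natAbs_ne_zero.2 djl)))
          (Nat.le_mul_of_pos_left _ (Nat.pos_of_ne_zero (Int.natAbs_ne_zero.2 dli)))
      have m2 := max_le_of_coords L i j dij (hΔ3 i) (hΔ3 j) p
      have m3 : 2 * Δ * (Δ * S ^ M₀) ≤ 2 * Δ *
          max (det L j l * val L i p).natAbs (det L l i * val L j p).natAbs :=
        calc 2 * Δ * (Δ * S ^ M₀) ≤ 2 * Δ * (Δ * (Δ * r) ^ M₀) :=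
              Nat.mul_le_mul_left _ (Nat.mul_le_mul_left _ (Nat.pow_le_pow_left hrad _))
          _ = 2 * Δ ^ (M₀ + 2) * r ^ M₀ := by ring
          _ ≤ 2 ^ E * r ^ M₀ := Nat.mul_le_mul_right _ hE
          _ ≤ r ^ E * r ^ M₀ := Nat.mul_le_mul_right _ (Nat.pow_le_pow_left p4 _)
          _ = r ^ (M₀ + E) := by ring
          _ ≤ max p.1.natAbs p.2.natAbs := p5
          _ ≤ 2 * Δ * max (val L i p).natAbs (val L j p).natAbs := m2
          _ ≤ _ := Nat.mul_le_mul_left _ m1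
      exact Nat.le_of_mul_le_mul_left m3 (by omega)
    · refine (hmulle _ _ djl (vne i)).trans (Nat.mul_le_mul (zrd _ _ djl) p7)
    · refine (hmulle _ _ dli (vne j)).trans (Nat.mul_le_mul (zrd _ _ dli) p8)
    · refine ⟨zr (val L i p), hF.her _ _ p6 (zr_dvd_of_dvd p2 (vdvd i)), ?_⟩
      refine (hmuldvd _ _ djl (vne i)).trans (mul_dvd_mul_left _ ?_)
      exact Nat.dvd_factorial (zr_pos _) (zrd _ _ djl)
    · refine ⟨zr (val L j p), hF.her _ _ p6 (zr_dvd_of_dvd p2 (vdvd j)), ?_⟩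
      refine (hmuldvd _ _ dli (vne j)).trans (mul_dvd_mul_left _ ?_)
      exact Nat.dvd_factorial (zr_pos _) (zrd _ _ dli))
  rw [Finset.card_image_of_injective _ hinj] at h1
  refine h1.trans ?_
  have hX0 : (0 : ℝ) ≤ X := Nat.cast_nonneg _
  have e1 : (((Δ * X : ℕ) : ℝ)) ^ ε = (Δ : ℝ) ^ ε * (X : ℝ) ^ ε := by
    rw [Nat.cast_mul, Real.mul_rpow (Nat.cast_nonneg _) hX0]
  have e2 : Real.sqrt ((((Δ * R₁ : ℕ) : ℝ)) ^ α * (((Δ * R₂ : ℕ) : ℝ)) ^ α) ≤
      Δ * Real.sqrt (((R₁ : ℝ) * R₂) ^ α) := by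
    have : (((Δ * R₁ : ℕ) : ℝ)) ^ α * (((Δ * R₂ : ℕ) : ℝ)) ^ α ≤
        (Δ : ℝ) ^ 2 * ((R₁ : ℝ) * R₂) ^ α := by
      rw [← Real.mul_rpow (Nat.cast_nonneg _) (Nat.cast_nonneg _), Nat.cast_mul, Nat.cast_mul,
        show (Δ : ℝ) * R₁ * (Δ * R₂) = (Δ : ℝ) ^ 2 * ((R₁ : ℝ) * R₂) by ring,
        Real.mul_rpow (by positivity) (by positivity)]
      apply mul_le_mul_of_nonneg_right _ (by positivity)
      calc ((Δ : ℝ) ^ 2) ^ α ≤ ((Δ : ℝ) ^ 2) ^ (1 : ℝ) :=
            Real.rpow_le_rpow_of_exponent_le (one_le_pow₀ hΔr) ha1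
        _ = (Δ : ℝ) ^ 2 := Real.rpow_one _
    calc _ ≤ Real.sqrt ((Δ : ℝ) ^ 2 * ((R₁ : ℝ) * R₂) ^ α) := Real.sqrt_le_sqrt this
      _ = Δ * Real.sqrt (((R₁ : ℝ) * R₂) ^ α) := by
        rw [Real.sqrt_mul (by positivity), Real.sqrt_sq (Nat.cast_nonneg _)]
  rw [e1]
  have e3 : (0 : ℝ) ≤ C₀ * (Δ + 1) * (c * G * (c * G)) ^ m₀ * ((Δ : ℝ) ^ ε * (X : ℝ) ^ ε) := by
    have : 0 ≤ G := by linarith
    positivity
  calc C₀ * ((Δ : ℝ) + 1) * (c * G * (c * G)) ^ m₀ * ((Δ : ℝ) ^ ε * (X : ℝ) ^ ε) *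
        Real.sqrt ((((Δ * R₁ : ℕ) : ℝ)) ^ α * (((Δ * R₂ : ℕ) : ℝ)) ^ α)
      ≤ C₀ * ((Δ : ℝ) + 1) * (c * G * (c * G)) ^ m₀ * ((Δ : ℝ) ^ ε * (X : ℝ) ^ ε) *
        (Δ * Real.sqrt (((R₁ : ℝ) * R₂) ^ α)) := mul_le_mul_of_nonneg_left e2 e3
    _ = C₀ * (Δ + 1) * c ^ (2 * m₀) * (Δ : ℝ) ^ ε * Δ * G ^ (2 * m₀) * (X : ℝ) ^ ε *
        Real.sqrt (((R₁ : ℝ) * R₂) ^ α) := by ring

end Pool.Agent.H583.SF
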