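import Pool.Agent.H583.SF.Forms

/-!
The two theorems on values of products of linear forms, for families of radicals.
-/

set_option autoImplicit false

namespace Pool.Agent.H583.SF

open Finset Pool.Agent.T2H20.ABC Pool.Agent.T2H20.AH Pool.Agent.H785R2.ABC

/-- **products of linear forms, radicals in a family** -/
theorem forms_fam (k : ℕ) (hk : 3 ≤ k) (L : Fin k → ℤ × ℤ) (hL : ∀ i j, i ≠ j → det L i j ≠ 0)
    (ε : ℝ) (hε : 0 < ε) : ∃ M m : ℕ, ∃ C : ℝ, 1 ≤ M ∧ 0 < C ∧ ∀ X : ℕ, 1 ≤ X →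
    ∀ (F : ℕ → Prop) (G α : ℝ), Fml F G α → ∀ Q : Finset (ℤ × ℤ),
    (∀ p ∈ Q, IsCoprime p.1 p.2 ∧ ∏ i, val L i p ≠ 0 ∧ zr (∏ i, val L i p) ≤ X ∧
      zr (∏ i, val L i p) ^ M ≤ max p.1.natAbs p.2.natAbs ∧ F (zr (∏ i, val L i p))) →
    (Q.card : ℝ) ≤ C * G ^ m * (X : ℝ) ^ (α / k + ε) := by
  classical
  obtain ⟨M, m, C₀, hM, hC₀, h0⟩ := one_box k hk L hL (ε / 2) (by positivity)
  obtain ⟨Δ, hΔ, -, hΔ2, -⟩ := exists_const L
  obtain ⟨C₁, hC₁, hlog⟩ := log_bound (ε / 4) (by positivity)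
  have hk0 : (0 : ℝ) < k := by have : 0 < k := by omega
                               exact_mod_cast this
  have hk1 : (1 : ℝ) ≤ k := by have : 1 ≤ k := by omega
                               exact_mod_cast this
  set K₀ : ℕ := (Δ ^ k) ^ k with hK₀
  have hK1 : 1 ≤ K₀ := Nat.one_le_pow _ _ (Nat.one_le_pow _ _ hΔ)
  have hKr : (1 : ℝ) ≤ K₀ := by exact_mod_cast hK1
  refine ⟨M, m, 4 + (k : ℝ) ^ 2 * C₁ ^ 2 * (C₀ * (2 * K₀)), hM, by positivity, ?_⟩
  intro X hX F G α hF Q hQ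
  have hG1 := hF.G1
  have ha0 := hF.a0
  have ha1 := hF.a1
  have hX1 : (1 : ℝ) ≤ X := by exact_mod_cast hX
  have hX0 : (0 : ℝ) < X := by linarith
  have vne : ∀ p ∈ Q, ∀ i, val L i p ≠ 0 := fun p hp i =>
    (Finset.prod_ne_zero_iff.1 (hQ p hp).2.1) i (Finset.mem_univ _)
  -- the pairs with radical one
  set Q₁ := Q.filter (fun p => zr (∏ i, val L i p) = 1) with hQ₁
  set Q₂ := Q.filter (fun p => ¬ zr (∏ i, val L i p) = 1) with hQ₂
  have hsplit : Q.card = Q₁.card + Q₂.card := (Finset.card_filter_add_card_filter_not _).symm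
  have b1 : Q₁.card ≤ 4 := by
    set i0 : Fin k := ⟨0, by omega⟩
    set i1 : Fin k := ⟨1, by omega⟩
    have hne : i0 ≠ i1 := by
      intro h
      have := congrArg Fin.val h
      simp [i0, i1] at this
    have hd := hL i0 i1 hne
    have : Q₁.card ≤ (({1, -1} : Finset ℤ) ×ˢ ({1, -1} : Finset ℤ)).card := by
      apply Finset.card_le_card_of_injOn (fun p => (val L i0 p, val L i1 p))
      · intro p hp
        rw [Finset.mem_coe, hQ₁, Finset.mem_filter] at hp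
        obtain ⟨hp1, hp2⟩ := hp
        have hpr := (hQ p hp1).2.1
        have hu : ∀ i, val L i p = 1 ∨ val L i p = -1 := by
          intro i
          apply natAbs_eq_one_of_zr (vne p hp1 i)
          have h1 : zr (val L i p) ≤ zr (∏ i, val L i p) :=
            zr_le_of_dvd hpr (Finset.dvd_prod_of_mem _ (Finset.mem_univ _))
          have h2 := zr_pos (val L i p)
          omega
        simp only [Finset.coe_product, Set.mem_prod, Finset.mem_coe, Finset.mem_insert,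
          Finset.mem_singleton]
        exact ⟨hu i0, hu i1⟩
      · intro p _ q _ hpq
        simp only [Prod.mk.injEq] at hpq
        have e3 : p.1 = q.1 := mul_left_cancel₀ hd (by rw [cramer1, cramer1, hpq.1, hpq.2])
        have e4 : p.2 = q.2 := mul_left_cancel₀ hd (by rw [cramer2, cramer2, hpq.1, hpq.2])
        exact Prod.ext e3 e4
    refine this.trans ?_
    rw [Finset.card_product]
    simp
  -- the boxes
  set N := Nat.log 2 X + 2 with hN
  set box : Fin k × Fin k × ℕ × ℕ → Finset (ℤ × ℤ) := fun t =>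
    Q₂.filter (fun p => t.1 ≠ t.2.1 ∧ zr (val L t.1 p) ≤ 2 ^ t.2.2.1 ∧ zr (val L t.2.1 p) ≤ 2 ^ t.2.2.2 ∧
      (2 ^ (t.2.2.1 + t.2.2.2)) ^ k ≤ 4 ^ k * (K₀ * X) ^ 2) with hbox
  have hcover : Q₂ ⊆ ((Finset.univ : Finset (Fin k)) ×ˢ (Finset.univ : Finset (Fin k)) ×ˢ
      (Finset.range N) ×ˢ (Finset.range N)).biUnion box := by
    intro p hp
    have hp' := hp
    rw [hQ₂, Finset.mem_filter] at hp'
    obtain ⟨hpQ, hp1⟩ := hp'
    obtain ⟨p1, p2, p3, p4, p5⟩ := hQ p hpQ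
    have hgcd : ∀ i j, i ≠ j → Nat.gcd (val L i p).natAbs (val L j p).natAbs ≤ Δ := by
      intro i j hij
      have h1 := gcd_dvd_det L i j p1
      have h2 : Int.gcd (val L i p) (val L j p) ∣ (det L i j).natAbs := by
        have := Int.natAbs_dvd_natAbs.2 h1
        rwa [Int.natAbs_natCast] at this
      exact (Nat.le_of_dvd (Nat.pos_of_ne_zero (Int.natAbs_ne_zero.2 (hL i j hij))) h2).trans (hΔ2 i j)
    have hprod := prod_rad_le (fun i => (val L i p).natAbs)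
      (fun i => Int.natAbs_ne_zero.2 (vne p hpQ i)) Δ hΔ hgcd
    have hprod2 : ∏ i, zr (val L i p) ≤ K₀ * X := by
      refine hprod.trans (Nat.mul_le_mul_left _ ?_)
      have : ∏ i, (val L i p).natAbs = (∏ i, val L i p).natAbs := by
        rw [← Int.natAbsHom_apply, map_prod]; rfl
      rw [this]
      exact p3
    obtain ⟨i, j, hij, hrr⟩ := exists_pair (by omega) (fun i => zr (val L i p))
      (fun i => zr_pos _) (K₀ * X) hprod2
    obtain ⟨s, s1, s2, s3⟩ := dyadic (zr_pos (val L i p))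
    obtain ⟨t, t1, t2, t3⟩ := dyadic (zr_pos (val L j p))
    have hle : ∀ i, zr (val L i p) ≤ X := fun i =>
      (zr_le_of_dvd p2 (Finset.dvd_prod_of_mem _ (Finset.mem_univ _))).trans p3
    have hlogle : ∀ i, Nat.log 2 (zr (val L i p)) + 1 < N := by
      intro i
      have := Nat.log_mono_right (b := 2) (hle i)
      omega
    rw [Finset.mem_biUnion]
    refine ⟨(i, j, s, t), ?_, ?_⟩
    · simp only [Finset.mem_product, Finset.mem_univ, Finset.mem_range, true_and]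
      rw [s3, t3]
      exact ⟨hlogle i, hlogle j⟩
    · rw [hbox]
      refine Finset.mem_filter.2 ⟨hp, hij, s1, t1, ?_⟩
      show (2 ^ (s + t)) ^ k ≤ 4 ^ k * (K₀ * X) ^ 2
      calc (2 ^ (s + t)) ^ k = (2 ^ s * 2 ^ t) ^ k := by rw [pow_add]
        _ ≤ ((2 * zr (val L i p)) * (2 * zr (val L j p))) ^ k :=
            Nat.pow_le_pow_left (Nat.mul_le_mul s2 t2) _
        _ = 4 ^ k * (zr (val L i p) * zr (val L j p)) ^ k := by rw [← mul_pow]; ring
        _ ≤ 4 ^ k * (K₀ * X) ^ 2 := Nat.mul_le_mul_left _ hrr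
  have hY : (1 : ℝ) ≤ (K₀ : ℝ) * X := by nlinarith
  have hαk : α / k ≤ 1 := by
    rw [div_le_one hk0]; linarith
  have hαk0 : 0 ≤ α / k := by positivity
  have hB : ∀ t ∈ ((Finset.univ : Finset (Fin k)) ×ˢ (Finset.univ : Finset (Fin k)) ×ˢ
      (Finset.range N) ×ˢ (Finset.range N)), ((box t).card : ℝ) ≤
      C₀ * G ^ m * (X : ℝ) ^ (ε / 2) * (2 * K₀ * (X : ℝ) ^ (α / k)) := by
    rintro ⟨i, j, s, t⟩ -
    rcases (box (i, j, s, t)).eq_empty_or_nonempty with h | ⟨p0, hp0⟩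
    · rw [h, Finset.card_empty, Nat.cast_zero]
      have : 0 ≤ G := by linarith
      positivity
    rw [hbox] at hp0
    obtain ⟨-, hij, -, -, hst⟩ := Finset.mem_filter.1 hp0
    have h1 := h0 X (2 ^ s) (2 ^ t) hX Nat.one_le_two_pow Nat.one_le_two_pow F G α hF i j hij
      (box (i, j, s, t)) (by
      intro p hp
      rw [hbox] at hp
      obtain ⟨hp2, -, q1, q2, -⟩ := Finset.mem_filter.1 hp
      rw [hQ₂, Finset.mem_filter] at hp2
      obtain ⟨p1, p2, p3, p4, p5⟩ := hQ p hp2.1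
      refine ⟨p1, p2, p3, ?_, p4, p5, q1, q2⟩
      have := zr_pos (∏ i, val L i p)
      have := hp2.2
      omega)
    refine h1.trans ?_
    have hG0 : 0 ≤ G := by linarith
    apply mul_le_mul_of_nonneg_left _ (by positivity)
    -- the size of the box
    have hx : (((2 ^ s : ℕ) : ℝ) * ((2 ^ t : ℕ) : ℝ)) ≤ 4 * ((K₀ : ℝ) * X) ^ ((2 : ℝ) / k) := by
      have h2 : ((((2 ^ s : ℕ) : ℝ) * ((2 ^ t : ℕ) : ℝ))) ^ k ≤
          (4 * ((K₀ : ℝ) * X) ^ ((2 : ℝ) / k)) ^ k := by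
        rw [mul_pow, mul_pow 4, ← Real.rpow_natCast (((K₀ : ℝ) * X) ^ ((2 : ℝ) / k)),
          ← Real.rpow_mul (by positivity), div_mul_cancel₀ _ hk0.ne']
        have h3 : (((2 ^ (s + t)) ^ k : ℕ) : ℝ) ≤ ((4 ^ k * (K₀ * X) ^ 2 : ℕ) : ℝ) := by
          exact_mod_cast hst
        push_cast at h3 ⊢
        rw [show (2 : ℝ) ^ s = 2 ^ s from rfl, ← mul_pow, ← pow_add]
        refine h3.trans (le_of_eq ?_)
        rw [show ((K₀ : ℝ) * X) ^ (2 : ℝ) = ((K₀ : ℝ) * X) ^ (2 : ℕ) from by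
          rw [← Real.rpow_natCast]; norm_num]
      exact le_of_pow_le_pow_left₀ (by omega) (by positivity) h2
    have h5 : Real.sqrt ((((2 ^ s : ℕ) : ℝ) * ((2 ^ t : ℕ) : ℝ)) ^ α) ≤ 2 * K₀ * (X : ℝ) ^ (α / k) := by
      have h6 : (((2 ^ s : ℕ) : ℝ) * ((2 ^ t : ℕ) : ℝ)) ^ α ≤ (2 * K₀ * (X : ℝ) ^ (α / k)) ^ 2 := by
        calc (((2 ^ s : ℕ) : ℝ) * ((2 ^ t : ℕ) : ℝ)) ^ α
            ≤ (4 * ((K₀ : ℝ) * X) ^ ((2 : ℝ) / k)) ^ α :=
              Real.rpow_le_rpow (by positivity) hx ha0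
          _ = (4 : ℝ) ^ α * (((K₀ : ℝ) * X) ^ (α / k)) ^ 2 := by
              rw [Real.mul_rpow (by norm_num) (by positivity), ← Real.rpow_mul (by positivity),
                ← Real.rpow_natCast (((K₀ : ℝ) * X) ^ (α / k)), ← Real.rpow_mul (by positivity)]
              congr 2
              push_cast
              ring
          _ ≤ 4 * ((K₀ : ℝ) * (X : ℝ) ^ (α / k)) ^ 2 := by
              have h7 : (4 : ℝ) ^ α ≤ 4 := by
                calc (4 : ℝ) ^ α ≤ (4 : ℝ) ^ (1 : ℝ) :=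
                      Real.rpow_le_rpow_of_exponent_le (by norm_num) ha1
                  _ = 4 := Real.rpow_one _
              have h8 : ((K₀ : ℝ) * X) ^ (α / k) ≤ (K₀ : ℝ) * (X : ℝ) ^ (α / k) := by
                rw [Real.mul_rpow (by positivity) hX0.le]
                apply mul_le_mul_of_nonneg_right _ (by positivity)
                calc (K₀ : ℝ) ^ (α / k) ≤ (K₀ : ℝ) ^ (1 : ℝ) :=
                      Real.rpow_le_rpow_of_exponent_le hKr hαk
                  _ = K₀ := Real.rpow_one _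
              exact mul_le_mul h7 (pow_le_pow_left₀ (by positivity) h8 2) (by positivity) (by norm_num)
          _ = (2 * K₀ * (X : ℝ) ^ (α / k)) ^ 2 := by ring
      calc Real.sqrt ((((2 ^ s : ℕ) : ℝ) * ((2 ^ t : ℕ) : ℝ)) ^ α)
          ≤ Real.sqrt ((2 * K₀ * (X : ℝ) ^ (α / k)) ^ 2) := Real.sqrt_le_sqrt h6
        _ = 2 * K₀ * (X : ℝ) ^ (α / k) := Real.sqrt_sq (by positivity)
    exact h5
  have hG0 : 0 ≤ G := by linarith
  have b2 : (Q₂.card : ℝ) ≤ (k : ℝ) ^ 2 * (N : ℝ) ^ 2 *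
      (C₀ * G ^ m * (X : ℝ) ^ (ε / 2) * (2 * K₀ * (X : ℝ) ^ (α / k))) := by
    calc (Q₂.card : ℝ) ≤ ((((Finset.univ : Finset (Fin k)) ×ˢ (Finset.univ : Finset (Fin k)) ×ˢ
          (Finset.range N) ×ˢ (Finset.range N)).biUnion box).card : ℝ) := by
          exact_mod_cast Finset.card_le_card hcover
      _ ≤ ∑ t ∈ ((Finset.univ : Finset (Fin k)) ×ˢ (Finset.univ : Finset (Fin k)) ×ˢ
          (Finset.range N) ×ˢ (Finset.range N)), ((box t).card : ℝ) := by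
          exact_mod_cast Finset.card_biUnion_le
      _ ≤ ∑ _t ∈ ((Finset.univ : Finset (Fin k)) ×ˢ (Finset.univ : Finset (Fin k)) ×ˢ
          (Finset.range N) ×ˢ (Finset.range N)),
          (C₀ * G ^ m * (X : ℝ) ^ (ε / 2) * (2 * K₀ * (X : ℝ) ^ (α / k))) := Finset.sum_le_sum hB
      _ = _ := by
          rw [Finset.sum_const, nsmul_eq_mul, Finset.card_product, Finset.card_product,
            Finset.card_product, Finset.card_range, Finset.card_univ, Fintype.card_fin]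
          push_cast
          ring
  have hNle : (N : ℝ) ≤ C₁ * (X : ℝ) ^ (ε / 4) := hlog X hX
  have hNN : (N : ℝ) ^ 2 ≤ C₁ ^ 2 * (X : ℝ) ^ (ε / 2) := by
    calc (N : ℝ) ^ 2 ≤ (C₁ * (X : ℝ) ^ (ε / 4)) ^ 2 := pow_le_pow_left₀ (Nat.cast_nonneg _) hNle 2
      _ = C₁ ^ 2 * (X : ℝ) ^ (ε / 2) := by
        rw [mul_pow, ← Real.rpow_natCast ((X : ℝ) ^ (ε / 4)), ← Real.rpow_mul hX0.le]
        congr 2
        push_cast; ring
  have hXp : (1 : ℝ) ≤ (X : ℝ) ^ (α / k + ε) := Real.one_le_rpow hX1 (by positivity)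
  have hGm : (1 : ℝ) ≤ G ^ m := one_le_pow₀ hG1
  have hfin : (k : ℝ) ^ 2 * (N : ℝ) ^ 2 *
      (C₀ * G ^ m * (X : ℝ) ^ (ε / 2) * (2 * K₀ * (X : ℝ) ^ (α / k))) ≤
      (k : ℝ) ^ 2 * C₁ ^ 2 * (C₀ * (2 * K₀)) * G ^ m * (X : ℝ) ^ (α / k + ε) := by
    calc (k : ℝ) ^ 2 * (N : ℝ) ^ 2 *
      (C₀ * G ^ m * (X : ℝ) ^ (ε / 2) * (2 * K₀ * (X : ℝ) ^ (α / k)))
        ≤ (k : ℝ) ^ 2 * (C₁ ^ 2 * (X : ℝ) ^ (ε / 2)) *
      (C₀ * G ^ m * (X : ℝ) ^ (ε / 2) * (2 * K₀ * (X : ℝ) ^ (α / k))) := by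
          apply mul_le_mul_of_nonneg_right _ (by positivity)
          exact mul_le_mul_of_nonneg_left hNN (by positivity)
      _ = (k : ℝ) ^ 2 * C₁ ^ 2 * (C₀ * (2 * K₀)) * G ^ m *
          ((X : ℝ) ^ (ε / 2) * (X : ℝ) ^ (ε / 2) * (X : ℝ) ^ (α / k)) := by ring
      _ = (k : ℝ) ^ 2 * C₁ ^ 2 * (C₀ * (2 * K₀)) * G ^ m * (X : ℝ) ^ (α / k + ε) := by
          rw [← Real.rpow_add hX0, ← Real.rpow_add hX0]
          congr 2
          ring
  have b1' : (Q₁.card : ℝ) ≤ 4 * G ^ m * (X : ℝ) ^ (α / k + ε) := by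
    have h4 : (Q₁.card : ℝ) ≤ 4 := by exact_mod_cast b1
    nlinarith [mul_le_mul hGm hXp zero_le_one (by positivity : (0:ℝ) ≤ G ^ m)]
  calc (Q.card : ℝ) = (Q₁.card : ℝ) + (Q₂.card : ℝ) := by exact_mod_cast hsplit
    _ ≤ 4 * G ^ m * (X : ℝ) ^ (α / k + ε) +
        (k : ℝ) ^ 2 * C₁ ^ 2 * (C₀ * (2 * K₀)) * G ^ m * (X : ℝ) ^ (α / k + ε) :=
        add_le_add b1' (b2.trans hfin)
    _ = _ := by ring

end Pool.Agent.H583.SF
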