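import Pool.Agent.H583.SF.Forms

/-!
Exceptional triples whose members are composed of primes of given thin sets.
-/

set_option autoImplicit false

namespace Pool.Agent.H583.SF

open Finset Pool.Agent.T2H20.ABC Pool.Agent.T2H20.AH Pool.Agent.H785R2.ABC

/-- the squarefree numbers composed of primes of `P` -/
def sqf (P : Set ℕ) (n : ℕ) : Prop := Squarefree n ∧ ∀ p ∈ n.primeFactors, p ∈ P

lemma fml_primes (P : Set ℕ) (s S : ℝ) (hs0 : 0 ≤ s) (hs1 : s ≤ 1)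
    (hS : ∀ T : Finset ℕ, (∀ p ∈ T, p ∈ P ∧ p.Prime) → ∑ p ∈ T, ((p : ℝ) ^ s)⁻¹ ≤ S) :
    Fml (sqf P) (Real.exp S) s := by
  classical
  have hS0 : 0 ≤ S := by simpa using hS ∅ (by simp)
  refine ⟨?_, Real.one_le_exp hS0, hs0, hs1, ?_⟩
  · rintro m n ⟨h1, h2⟩ hmn
    exact ⟨h1.squarefree_of_dvd hmn, fun p hp => h2 p (Nat.primeFactors_mono hmn h1.ne_zero hp)⟩
  · intro Y A hY hA
    obtain ⟨T, hT⟩ : ∃ T : Finset ℕ, T = A.biUnion fun n => n.primeFactors := ⟨_, rfl⟩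
    have hTP : ∀ p ∈ T, p ∈ P ∧ p.Prime := by
      intro p hp
      rw [hT] at hp
      obtain ⟨n, hn, hpn⟩ := Finset.mem_biUnion.1 hp
      exact ⟨(hA n hn).2.2.2 p hpn, Nat.prime_of_mem_primeFactors hpn⟩
    have hY0 : (0 : ℝ) < Y := by exact_mod_cast hY
    -- each member contributes at least one
    have h1 : ∀ n ∈ A, (1 : ℝ) ≤ (Y : ℝ) ^ s * ∏ p ∈ n.primeFactors, ((p : ℝ) ^ s)⁻¹ := by
      intro n hn
      obtain ⟨k1, k2, k3, -⟩ := hA n hn
      have e1 : ∏ p ∈ n.primeFactors, ((p : ℝ) ^ s)⁻¹ = ((n : ℝ) ^ s)⁻¹ := by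
        rw [Finset.prod_inv_distrib, Real.finsetProd_rpow _ _ (fun p _ => by positivity)]
        congr 2
        have := Nat.prod_primeFactors_of_squarefree k3
        rw [← Nat.cast_prod, this]
      rw [e1]
      have hn0 : (0 : ℝ) < n := by exact_mod_cast k1
      have h2 : (n : ℝ) ^ s ≤ (Y : ℝ) ^ s := Real.rpow_le_rpow hn0.le (by exact_mod_cast k2) hs0
      rw [← div_eq_mul_inv, le_div_iff₀ (Real.rpow_pos_of_pos hn0 s), one_mul]
      exact h2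
    have h2 : ∑ n ∈ A, ∏ p ∈ n.primeFactors, ((p : ℝ) ^ s)⁻¹ ≤ Real.exp S := by
      have e1 : ∑ n ∈ A, ∏ p ∈ n.primeFactors, ((p : ℝ) ^ s)⁻¹ =
          ∑ t ∈ A.image Nat.primeFactors, ∏ p ∈ t, ((p : ℝ) ^ s)⁻¹ := by
        rw [Finset.sum_image]
        intro x hx y hy hxy
        have e2 := Nat.prod_primeFactors_of_squarefree (hA x hx).2.2.1
        have e3 := Nat.prod_primeFactors_of_squarefree (hA y hy).2.2.1
        rw [← e2, ← e3, hxy]
      rw [e1]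
      have h3 : ∑ t ∈ A.image Nat.primeFactors, ∏ p ∈ t, ((p : ℝ) ^ s)⁻¹ ≤
          ∑ t ∈ T.powerset, ∏ p ∈ t, ((p : ℝ) ^ s)⁻¹ := by
        apply Finset.sum_le_sum_of_subset_of_nonneg
        · intro t ht
          obtain ⟨n, hn, rfl⟩ := Finset.mem_image.1 ht
          rw [Finset.mem_powerset, hT]
          exact Finset.subset_biUnion_of_mem (fun n : ℕ => n.primeFactors) hn
        · intro t _ _
          exact Finset.prod_nonneg fun p _ => by positivity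
      refine h3.trans ?_
      rw [← Finset.prod_one_add]
      refine (Finset.prod_le_prod (fun p _ => by positivity) fun p _ =>
        (add_comm (1 : ℝ) _).le.trans (Real.add_one_le_exp _)).trans ?_
      rw [← Real.exp_sum]
      exact Real.exp_le_exp.2 (hS T hTP)
    calc (A.card : ℝ) = ∑ n ∈ A, (1 : ℝ) := by simp
      _ ≤ ∑ n ∈ A, (Y : ℝ) ^ s * ∏ p ∈ n.primeFactors, ((p : ℝ) ^ s)⁻¹ := Finset.sum_le_sum h1
      _ = (Y : ℝ) ^ s * ∑ n ∈ A, ∏ p ∈ n.primeFactors, ((p : ℝ) ^ s)⁻¹ := by rw [Finset.mul_sum]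
      _ ≤ (Y : ℝ) ^ s * Real.exp S := mul_le_mul_of_nonneg_left h2 (by positivity)
      _ = Real.exp S * (Y : ℝ) ^ s := mul_comm _ _

/-- the exponent for three sets of primes of exponents `s₁`, `s₂`, `s₃` -/
noncomputable def hexp (s₁ s₂ s₃ : ℝ) : ℝ :=
  max (s₁ * s₂ * s₃ / (s₁ * s₂ + s₁ * s₃ + s₂ * s₃))
    (max (s₁ * s₂ / (2 * (s₁ + s₂))) (max (s₁ * s₃ / (2 * (s₁ + s₃))) (s₂ * s₃ / (2 * (s₂ + s₃)))))

lemma le_of_div {a b h : ℝ} (hb : 0 ≤ b) (h0 : b = 0 → a ≤ 0) (hh : a / b ≤ h) : a ≤ h * b := by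
  rcases hb.eq_or_lt with hb | hb
  · rw [← hb, mul_zero]; exact h0 hb.symm
  · rwa [div_le_iff₀ hb] at hh

/-- the inequality for the largest `p = s₁ x`, and `q = s₂ y ≥ r = s₃ z` -/
lemma core_ineq {s₁ s₂ s₃ h x y z L : ℝ} (h1 : 0 ≤ s₁) (h2 : 0 ≤ s₂) (h3 : 0 ≤ s₃)
    (e1 : s₁ * s₂ * s₃ ≤ h * (s₁ * s₂ + s₁ * s₃ + s₂ * s₃))
    (e2 : s₁ * s₂ ≤ h * (2 * (s₁ + s₂))) (hh : 0 ≤ h)
    (hx : 0 ≤ x) (hy : 0 ≤ y) (hz : 0 ≤ z) (hL : x + y + z ≤ L)
    (hpq : s₂ * y ≤ s₁ * x) (hqr : s₃ * z ≤ s₂ * y) : s₂ * y + s₃ * z ≤ 2 * h * L := by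
  have hL0 : 0 ≤ L := by linarith
  have hhL : 0 ≤ 2 * h * L := by positivity
  rcases h2.eq_or_lt with h2 | h2
  · rw [← h2] at hqr ⊢
    have : 0 ≤ s₃ * z := by positivity
    linarith
  rcases h1.eq_or_lt with h1 | h1
  · rw [← h1] at hpq
    have : 0 ≤ s₂ * y := by positivity
    have : 0 ≤ s₃ * z := by positivity
    linarith
  rcases h3.eq_or_lt with h3 | h3
  · rw [← h3, zero_mul, add_zero]
    -- q = s₂ y, `x ≥ q / s₁`, `y = q / s₂`
    have k1 : s₂ * (s₂ * y) ≤ s₂ * (s₁ * x) := mul_le_mul_of_nonneg_left hpq h2.le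
    have k0 : s₁ * s₂ * (x + y) ≤ s₁ * s₂ * L := mul_le_mul_of_nonneg_left (by linarith)
      (by positivity)
    have k2 : (s₁ + s₂) * (s₂ * y) ≤ s₁ * s₂ * L := by linarith
    have k3 : (s₁ + s₂) * (s₂ * y) ≤ h * (2 * (s₁ + s₂)) * L := k2.trans
      (mul_le_mul_of_nonneg_right e2 hL0)
    have k4 : (s₁ + s₂) * (s₂ * y) ≤ (s₁ + s₂) * (2 * h * L) := by linarith
    exact le_of_mul_le_mul_left k4 (by positivity)
  · obtain ⟨q, hq⟩ : ∃ q, q = s₂ * y := ⟨_, rfl⟩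
    obtain ⟨r, hr⟩ : ∃ r, r = s₃ * z := ⟨_, rfl⟩
    have hy' : y = q / s₂ := by rw [hq]; field_simp
    have hz' : z = r / s₃ := by rw [hr]; field_simp
    have hx' : q / s₁ ≤ x := by rw [div_le_iff₀ h1, hq]; linarith
    have hr0 : 0 ≤ r := by rw [hr]; positivity
    have hqr' : r ≤ q := by rw [hr, hq]; exact hqr
    rw [← hq, ← hr]
    have f1 : 1 ≤ 2 * h * (1 / s₁ + 1 / s₂) := by
      rw [div_add_div _ _ h1.ne' h2.ne', mul_div_assoc', le_div_iff₀ (by positivity)]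
      linarith
    have f2 : 2 ≤ 2 * h * (1 / s₁ + 1 / s₂ + 1 / s₃) := by
      rw [div_add_div _ _ h1.ne' h2.ne', div_add_div _ _ (by positivity) h3.ne', mul_div_assoc',
        le_div_iff₀ (by positivity)]
      linarith
    have f3 : (q - r) * (1 / s₁ + 1 / s₂) + r * (1 / s₁ + 1 / s₂ + 1 / s₃) ≤ L := by
      have : (q - r) * (1 / s₁ + 1 / s₂) + r * (1 / s₁ + 1 / s₂ + 1 / s₃) =
        q / s₁ + q / s₂ + r / s₃ := by ring
      rw [this, ← hy', ← hz']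
      linarith
    have f4 : 0 ≤ q - r := by linarith only [hqr']
    calc q + r = (q - r) * 1 + r * 2 := by ring
      _ ≤ (q - r) * (2 * h * (1 / s₁ + 1 / s₂)) + r * (2 * h * (1 / s₁ + 1 / s₂ + 1 / s₃)) :=
          add_le_add (mul_le_mul_of_nonneg_left f1 f4) (mul_le_mul_of_nonneg_left f2 hr0)
      _ = 2 * h * ((q - r) * (1 / s₁ + 1 / s₂) + r * (1 / s₁ + 1 / s₂ + 1 / s₃)) := by ring
      _ ≤ 2 * h * L := mul_le_mul_of_nonneg_left f3 (by positivity)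

/-- some pair has a small weighted sum -/
lemma pair_ineq {s : Fin 3 → ℝ} {x : Fin 3 → ℝ} {L : ℝ} (hs : ∀ i, 0 ≤ s i) (hx : ∀ i, 0 ≤ x i)
    (hL : x 0 + x 1 + x 2 ≤ L) :
    ∃ i j, i ≠ j ∧ s i * x i + s j * x j ≤ 2 * hexp (s 0) (s 1) (s 2) * L := by
  have a0 := hs 0; have a1 := hs 1; have a2 := hs 2
  have b0 := hx 0; have b1 := hx 1; have b2 := hx 2
  obtain ⟨h, hh⟩ : ∃ h, h = hexp (s 0) (s 1) (s 2) := ⟨_, rfl⟩
  rw [← hh]
  have g0 : s 0 * s 1 * s 2 / (s 0 * s 1 + s 0 * s 2 + s 1 * s 2) ≤ h := by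
    rw [hh]; exact le_max_left _ _
  have g1 : s 0 * s 1 / (2 * (s 0 + s 1)) ≤ h := by
    rw [hh]; exact (le_max_left _ _).trans (le_max_right _ _)
  have g2 : s 0 * s 2 / (2 * (s 0 + s 2)) ≤ h := by
    rw [hh]; exact ((le_max_left _ _).trans (le_max_right _ _)).trans (le_max_right _ _)
  have g3 : s 1 * s 2 / (2 * (s 1 + s 2)) ≤ h := by
    rw [hh]; exact ((le_max_right _ _).trans (le_max_right _ _)).trans (le_max_right _ _)
  have hh0 : 0 ≤ h := le_trans (by positivity) g1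
  have zero2 : ∀ {a b : ℝ}, 0 ≤ a → 0 ≤ b → 2 * (a + b) = 0 → a * b ≤ 0 := by
    intro a b ha hb hab
    have : a = 0 := by linarith
    rw [this, zero_mul]
  have e1 := le_of_div (by positivity) (zero2 a0 a1) g1
  have e2 := le_of_div (by positivity) (zero2 a0 a2) g2
  have e3 := le_of_div (by positivity) (zero2 a1 a2) g3
  have e0 := le_of_div (by positivity) (by
    intro h0
    have c1 : 0 ≤ s 0 * s 1 := by positivity
    have c2 : 0 ≤ s 0 * s 2 := by positivity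
    have c3 : 0 ≤ s 1 * s 2 := by positivity
    have c4 : s 0 * s 1 = 0 := by linarith
    rw [c4, zero_mul]) g0
  rcases le_total (s 0 * x 0) (s 1 * x 1) with c1 | c1 <;>
  rcases le_total (s 0 * x 0) (s 2 * x 2) with c2 | c2 <;>
  rcases le_total (s 1 * x 1) (s 2 * x 2) with c3 | c3
  · -- p0 ≤ p1 ≤ p2
    exact ⟨1, 0, by decide, core_ineq (x := x 2) a2 a1 a0 (by linarith) (by linarith) hh0 b2 b1 b0
      (by linarith) c3 c1⟩
  · exact ⟨2, 0, by decide, core_ineq (x := x 1) a1 a2 a0 (by linarith) (by linarith) hh0 b1 b2 b0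
      (by linarith) c3 c2⟩
  · exact ⟨0, 2, by decide, core_ineq (x := x 1) a1 a0 a2 (by linarith) (by linarith) hh0 b1 b0 b2
      (by linarith) c1 c2⟩
  · exact ⟨0, 2, by decide, core_ineq (x := x 1) a1 a0 a2 (by linarith) (by linarith) hh0 b1 b0 b2
      (by linarith) c1 c2⟩
  · exact ⟨0, 1, by decide, core_ineq (x := x 2) a2 a0 a1 (by linarith) (by linarith) hh0 b2 b0 b1
      (by linarith) c2 c1⟩
  · exact ⟨0, 1, by decide, core_ineq (x := x 2) a2 a0 a1 (by linarith) (by linarith) hh0 b2 b0 b1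
      (by linarith) c2 c1⟩
  · exact ⟨2, 1, by decide, core_ineq (x := x 0) a0 a2 a1 (by linarith) (by linarith) hh0 b0 b2 b1
      (by linarith) c2 c3⟩
  · exact ⟨1, 2, by decide, core_ineq (x := x 0) a0 a1 a2 (by linarith) (by linarith) hh0 b0 b1 b2
      (by linarith) c1 c3⟩

end Pool.Agent.H583.SF
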