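import Pool.Agent.H583.SF.Thin
import Pool.Agent.H583.SF.Comb

/-!
Exceptional triples whose members are composed of primes of given thin sets: the theorem.
-/

set_option autoImplicit false

namespace Pool.Agent.H583.SF

open Finset Pool.Agent.T2H20.ABC Pool.Agent.T2H20.AH Pool.Agent.H785R2.ABC

lemma hexp_nonneg {a b c : ℝ} (ha : 0 ≤ a) (hb : 0 ≤ b) : 0 ≤ hexp a b c := by
  refine le_trans ?_ ((le_max_left _ _).trans (le_max_right _ _))
  positivity

lemma hexp_le_one {a b c : ℝ} (ha : 0 ≤ a) (hb : 0 ≤ b) (hc : 0 ≤ c) (hb1 : b ≤ 1)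
    (hc1 : c ≤ 1) : hexp a b c ≤ 1 := by
  have k1 : a * b ≤ a := mul_le_of_le_one_right ha hb1
  have k2 : a * c ≤ a := mul_le_of_le_one_right ha hc1
  have k3 : b * c ≤ b := mul_le_of_le_one_right hb hc1
  have k4 : a * b * c ≤ a * b := mul_le_of_le_one_right (by positivity) hc1
  have k5 : 0 ≤ a * c := by positivity
  have k6 : 0 ≤ b * c := by positivity
  have k7 : 0 ≤ a * b := by positivity
  refine max_le (div_le_one_of_le₀ (by linarith) (by positivity)) (max_le ?_ (max_le ?_ ?_)) <;>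
    exact div_le_one_of_le₀ (by linarith) (by positivity)

lemma rad_triple {a b : ℕ} (ha : 0 < a) (hb : 0 < b) (h : Nat.Coprime a b) :
    rad a * rad b * rad (a + b) = rad (a * b * (a + b)) := by
  have h1 : Nat.gcd (a * b) (a + b) = 1 := by
    apply Nat.Coprime.mul_left
    · simpa using h
    · simpa using h.symm
  have r1 : rad 1 = 1 := by simp [rad]
  have e1 := rad_mul_rad ha.ne' hb.ne'
  rw [h.gcd_eq_one, r1, mul_one] at e1
  have e2 := rad_mul_rad (Nat.mul_pos ha hb).ne' (Nat.add_pos_left ha b).ne'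
  rw [h1, r1, mul_one] at e2
  rw [e1, e2]

/-- **the exceptional triples whose members are composed of primes of given sets** -/
theorem thin_main (ε : ℝ) (hε : 0 < ε) : ∃ M m : ℕ, ∃ C : ℝ, 0 < C ∧
    ∀ (P : Fin 3 → Set ℕ) (s S : Fin 3 → ℝ),
    (∀ i, 0 ≤ s i ∧ s i ≤ 1 ∧ 0 ≤ S i ∧ (s i < 1 →
      ∀ T : Finset ℕ, (∀ p ∈ T, p ∈ P i ∧ p.Prime) → ∑ p ∈ T, ((p : ℝ) ^ (s i))⁻¹ ≤ S i)) →
    ∀ X : ℕ, 1 ≤ X → ∀ Q : Finset (ℕ × ℕ),
    (∀ q ∈ Q, 0 < q.1 ∧ 0 < q.2 ∧ Nat.Coprime q.1 q.2 ∧ rad (q.1 * q.2 * (q.1 + q.2)) ≤ X ∧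
      rad (q.1 * q.2 * (q.1 + q.2)) ^ M ≤ q.1 + q.2 ∧
      ∀ i, ∀ p, p.Prime → p ∣ num (tri q) i → p ∈ P i) →
    (Q.card : ℝ) ≤ C * Real.exp (m * (S 0 + S 1 + S 2)) *
      (X : ℝ) ^ (hexp (s 0) (s 1) (s 2) + ε) := by
  classical
  obtain ⟨M, m, C₀, hM, hC₀, h0⟩ := fam_exceptions (ε / 2) (by positivity)
  obtain ⟨CL, hCL, hL⟩ := log_bound (ε / 4) (by positivity)
  refine ⟨M, m, 9 * CL ^ 2 * (C₀ * 8), by positivity, ?_⟩
  intro P s S hP X hX Q hQ
  obtain ⟨h, hh⟩ : ∃ h, h = hexp (s 0) (s 1) (s 2) := ⟨_, rfl⟩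
  rw [← hh]
  have hh0 : 0 ≤ h := by rw [hh]; exact hexp_nonneg (hP 0).1 (hP 1).1
  have hh1 : h ≤ 1 := by
    rw [hh]; exact hexp_le_one (hP 0).1 (hP 1).1 (hP 2).1 (hP 1).2.1 (hP 2).2.1
  have hX1 : (1 : ℝ) ≤ X := by exact_mod_cast hX
  have hX0 : (0 : ℝ) < X := by linarith
  -- the families
  obtain ⟨F, hF, hFml, hFmem⟩ : ∃ F : Fin 3 → ℕ → Prop, True ∧
      (∀ i, Fml (F i) (Real.exp (S i)) (s i)) ∧ ∀ q ∈ Q, ∀ i, F i (rad (num (tri q) i)) := by
    refine ⟨fun i n => s i < 1 → sqf (P i) n, trivial, ?_, ?_⟩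
    · intro i
      by_cases hi : s i < 1
      · have : (fun n => s i < 1 → sqf (P i) n) = sqf (P i) := by
          funext n; simp [hi]
        show Fml (fun n => s i < 1 → sqf (P i) n) _ _
        rw [this]
        exact fml_primes (P i) (s i) (S i) (hP i).1 (hP i).2.1 ((hP i).2.2.2 hi)
      · have h1 : s i = 1 := le_antisymm (hP i).2.1 (not_lt.1 hi)
        have : (fun n => s i < 1 → sqf (P i) n) = fun _ => True := by
          funext n; simp [hi]
        show Fml (fun n => s i < 1 → sqf (P i) n) _ _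
        rw [this, h1]
        have e1 := fml_all
        refine ⟨e1.her, Real.one_le_exp (hP i).2.2.1, e1.a0, e1.a1, fun Y A hY hA => ?_⟩
        refine (e1.cnt Y A hY hA).trans ?_
        exact mul_le_mul_of_nonneg_right (Real.one_le_exp (hP i).2.2.1) (by positivity)
    · intro q hq i _
      obtain ⟨-, -, -, -, -, q6⟩ := hQ q hq
      have hsub : (num (tri q) i).primeFactors ⊆ (num (tri q) i).primeFactors := subset_rfl
      obtain ⟨g1, g2⟩ := rad_mem_set hsub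
      exact ⟨g1, fun p hp => q6 i p (Nat.prime_of_mem_primeFactors hp)
        (Nat.dvd_of_mem_primeFactors (g2 hp))⟩
  -- the boxes
  obtain ⟨N, hN⟩ : ∃ N, N = Nat.log 2 X + 2 := ⟨_, rfl⟩
  have hNb : (N : ℝ) ≤ CL * (X : ℝ) ^ (ε / 4) := by rw [hN]; exact hL X hX
  obtain ⟨box, hbox⟩ : ∃ box : Fin 3 × Fin 3 × ℕ × ℕ → Finset (ℕ × ℕ), box = fun t =>
    Q.filter (fun q => t.1 ≠ t.2.1 ∧ rad (num (tri q) t.1) ≤ 2 ^ t.2.2.1 ∧
      rad (num (tri q) t.2.1) ≤ 2 ^ t.2.2.2 ∧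
      s t.1 * (t.2.2.1 * Real.log 2) + s t.2.1 * (t.2.2.2 * Real.log 2) ≤
        2 * h * Real.log (8 * X)) := ⟨_, rfl⟩
  obtain ⟨I, hI⟩ : ∃ I : Finset (Fin 3 × Fin 3 × ℕ × ℕ), I = (Finset.univ : Finset (Fin 3)) ×ˢ
      (Finset.univ : Finset (Fin 3)) ×ˢ (Finset.range N) ×ˢ (Finset.range N) := ⟨_, rfl⟩
  have hl2 := Real.log_pos one_lt_two
  have hcover : Q ⊆ I.biUnion box := by
    intro q hq
    obtain ⟨q1, q2, q3, q4, q5, q6⟩ := hQ q hq
    have hrt := rad_triple q1 q2 q3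
    have hn : ∀ i, num (tri q) i = if i = 0 then q.1 else if i = 1 then q.2 else q.1 + q.2 :=
      fun i => rfl
    have hrp : ∀ i, 1 ≤ rad (num (tri q) i) := fun i => rad_pos _
    have hprod : rad (num (tri q) 0) * rad (num (tri q) 1) * rad (num (tri q) 2) ≤ X := by
      rw [num0, num1, num2, hrt]; exact q4
    have hle : ∀ i, rad (num (tri q) i) ≤ X := by
      have g0 := hrp 0; have g1 := hrp 1; have g2 := hrp 2
      intro i
      fin_cases i
      · exact (Nat.le_mul_of_pos_right _ g1).trans ((Nat.le_mul_of_pos_right _ g2).trans hprod)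
      · exact (Nat.le_mul_of_pos_left _ g0).trans ((Nat.le_mul_of_pos_right _ g2).trans hprod)
      · exact (Nat.le_mul_of_pos_left _ (Nat.mul_pos g0 g1)).trans hprod
    choose σ s1 s2 s3 using fun i => dyadic (hrp i)
    have hsum : (σ 0 : ℝ) * Real.log 2 + σ 1 * Real.log 2 + σ 2 * Real.log 2 ≤
        Real.log (8 * X) := by
      have g1 : 2 ^ σ 0 * 2 ^ σ 1 * 2 ^ σ 2 ≤ 8 * X := by
        calc 2 ^ σ 0 * 2 ^ σ 1 * 2 ^ σ 2 ≤ (2 * rad (num (tri q) 0)) * (2 * rad (num (tri q) 1)) *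
              (2 * rad (num (tri q) 2)) := Nat.mul_le_mul (Nat.mul_le_mul (s2 0) (s2 1)) (s2 2)
          _ = 8 * (rad (num (tri q) 0) * rad (num (tri q) 1) * rad (num (tri q) 2)) := by ring
          _ ≤ 8 * X := Nat.mul_le_mul_left _ hprod
      have g2 : ((2 : ℝ) ^ (σ 0 + σ 1 + σ 2)) ≤ 8 * X := by
        rw [pow_add, pow_add]; exact_mod_cast g1
      have g3 := Real.log_le_log (by positivity) g2
      rw [Real.log_pow] at g3
      push_cast at g3
      linarith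
    obtain ⟨i, j, hij, hle2⟩ := pair_ineq (s := s) (x := fun i => (σ i : ℝ) * Real.log 2)
      (fun i => (hP i).1) (fun i => by positivity) hsum
    rw [← hh] at hle2
    rw [Finset.mem_biUnion]
    refine ⟨(i, j, σ i, σ j), ?_, ?_⟩
    · rw [hI]
      simp only [Finset.mem_product, Finset.mem_univ, Finset.mem_range, true_and]
      rw [s3, s3, hN]
      have l1 := Nat.log_mono_right (b := 2) (hle i)
      have l2 := Nat.log_mono_right (b := 2) (hle j)
      exact ⟨by omega, by omega⟩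
    · rw [hbox]
      exact Finset.mem_filter.2 ⟨hq, hij, s1 i, s1 j, hle2⟩
  obtain ⟨E, hE⟩ : ∃ E, E = Real.exp (m * (S 0 + S 1 + S 2)) := ⟨_, rfl⟩
  have hE0 : 0 < E := by rw [hE]; exact Real.exp_pos _
  have hB : ∀ t ∈ I, ((box t).card : ℝ) ≤ C₀ * E * (X : ℝ) ^ (ε / 2) * (8 * (X : ℝ) ^ h) := by
    rintro ⟨i, j, σ, τ⟩ -
    by_cases hne : (box (i, j, σ, τ)).Nonempty
    · obtain ⟨q0, hq0⟩ := hne
      rw [hbox] at hq0
      obtain ⟨-, hij, -, -, hwt⟩ := Finset.mem_filter.1 hq0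
      simp only at hij hwt
      have h1 := h0 X (2 ^ σ) (2 ^ τ) hX Nat.one_le_two_pow Nat.one_le_two_pow (F i) (F j)
        _ _ _ _ (hFml i) (hFml j) (box (i, j, σ, τ)) (by
          intro q hq
          rw [hbox] at hq
          obtain ⟨hqQ, -, b1, b2, -⟩ := Finset.mem_filter.1 hq
          obtain ⟨q1, q2, q3, q4, q5, q6⟩ := hQ q hqQ
          exact ⟨q1, q2, q3, q4, ⟨i, j, hij, ⟨b1, b2⟩, ⟨hFmem q hqQ i, hFmem q hqQ j⟩⟩, q5⟩)
      refine h1.trans ?_
      have g1 : (Real.exp (S i) * Real.exp (S j)) ^ m ≤ E := by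
        rw [← Real.exp_add, ← Real.exp_nat_mul, hE]
        apply Real.exp_le_exp.2
        apply mul_le_mul_of_nonneg_left _ (Nat.cast_nonneg m)
        have z0 := (hP 0).2.2.1
        have z1 := (hP 1).2.2.1
        have z2 := (hP 2).2.2.1
        fin_cases i <;> fin_cases j <;> simp at hij ⊢ <;> linarith
      have g2 : Real.sqrt (((2 ^ σ : ℕ) : ℝ) ^ s i * ((2 ^ τ : ℕ) : ℝ) ^ s j) ≤ 8 * (X : ℝ) ^ h := by
        have e1 : ((2 ^ σ : ℕ) : ℝ) ^ s i = Real.exp (s i * (σ * Real.log 2)) := by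
          rw [Real.rpow_def_of_pos (by positivity)]
          push_cast
          rw [Real.log_pow]
          ring_nf
        have e2 : ((2 ^ τ : ℕ) : ℝ) ^ s j = Real.exp (s j * (τ * Real.log 2)) := by
          rw [Real.rpow_def_of_pos (by positivity)]
          push_cast
          rw [Real.log_pow]
          ring_nf
        rw [e1, e2, ← Real.exp_add]
        have e3 : Real.exp (s i * (σ * Real.log 2) + s j * (τ * Real.log 2)) ≤
            ((8 * (X : ℝ)) ^ h) ^ 2 := by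
          rw [← Real.rpow_natCast, ← Real.rpow_mul (by positivity),
            Real.rpow_def_of_pos (by positivity)]
          apply Real.exp_le_exp.2
          push_cast
          linarith
        refine (Real.sqrt_le_sqrt e3).trans ?_
        rw [Real.sqrt_sq (by positivity), Real.mul_rpow (by norm_num) hX0.le]
        apply mul_le_mul_of_nonneg_right _ (by positivity)
        calc (8 : ℝ) ^ h ≤ 8 ^ (1 : ℝ) := Real.rpow_le_rpow_of_exponent_le (by norm_num) hh1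
          _ = 8 := Real.rpow_one _
      have g3 : C₀ * (Real.exp (S i) * Real.exp (S j)) ^ m * (X : ℝ) ^ (ε / 2) ≤
          C₀ * E * (X : ℝ) ^ (ε / 2) :=
        mul_le_mul_of_nonneg_right (mul_le_mul_of_nonneg_left g1 hC₀.le) (by positivity)
      exact mul_le_mul g3 g2 (Real.sqrt_nonneg _) (by positivity)
    · rw [Finset.not_nonempty_iff_eq_empty.1 hne]
      simp only [Finset.card_empty, Nat.cast_zero]
      positivity
  have hIc : (I.card : ℝ) = 9 * (N : ℝ) ^ 2 := by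
    rw [hI]
    simp only [Finset.card_product, Finset.card_univ, Fintype.card_fin, Finset.card_range]
    push_cast
    ring
  calc (Q.card : ℝ) ≤ ((I.biUnion box).card : ℝ) := by exact_mod_cast Finset.card_le_card hcover
    _ ≤ ∑ t ∈ I, ((box t).card : ℝ) := by exact_mod_cast Finset.card_biUnion_le
    _ ≤ ∑ _t ∈ I, C₀ * E * (X : ℝ) ^ (ε / 2) * (8 * (X : ℝ) ^ h) := Finset.sum_le_sum hB
    _ = (9 * (N : ℝ) ^ 2) * (C₀ * E * (X : ℝ) ^ (ε / 2) * (8 * (X : ℝ) ^ h)) := by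
        rw [Finset.sum_const, nsmul_eq_mul, hIc]
    _ ≤ (9 * (CL * (X : ℝ) ^ (ε / 4)) ^ 2) * (C₀ * E * (X : ℝ) ^ (ε / 2) * (8 * (X : ℝ) ^ h)) := by
        apply mul_le_mul_of_nonneg_right _ (by positivity)
        apply mul_le_mul_of_nonneg_left _ (by norm_num)
        exact pow_le_pow_left₀ (Nat.cast_nonneg N) hNb 2
    _ = 9 * CL ^ 2 * (C₀ * 8) * E * ((X : ℝ) ^ (ε / 4) * (X : ℝ) ^ (ε / 4) * (X : ℝ) ^ (ε / 2) *
          (X : ℝ) ^ h) := by ring
    _ = 9 * CL ^ 2 * (C₀ * 8) * E * (X : ℝ) ^ (h + ε) := by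
        rw [← Real.rpow_add hX0, ← Real.rpow_add hX0, ← Real.rpow_add hX0]
        congr 2
        ring
    _ = 9 * CL ^ 2 * (C₀ * 8) * Real.exp (m * (S 0 + S 1 + S 2)) * (X : ℝ) ^ (h + ε) := by
        rw [hE]

end Pool.Agent.H583.SF
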